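import Pool.Agent.Helper70.DY.G5
import Pool.Agent.Helper69.DY.C

/-!
# Block [FN]: a linear form which vanishes exactly on a plane section (MP_d13a5e_al)
-/

set_option autoImplicit false

namespace DY

open Set

variable {E : Type*} [AddCommGroup E] [Module ℝ E]

/-- coordinates of a root -/
theorem Tri.coord {Ψ : Set E} {B : E →ₗ[ℝ] E →ₗ[ℝ] ℝ} {a b c : E} (h : Tri Ψ B a b c) {u : E}
    (hu : u ∈ Ψ) : ∃ α β γ : ℝ, u = α • a + β • b + γ • c := by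
  rcases h.pos u hu with ⟨α, β, γ, e, -, -, -⟩ | ⟨α, β, γ, e, -, -, -⟩
  · exact ⟨α, β, γ, e⟩
  · refine ⟨-α, -β, -γ, ?_⟩
    have h1 : u = -(α • a + β • b + γ • c) := by rw [← e, neg_neg]
    rw [h1]
    module

private theorem ker_fn {a b c : E} {x1 x2 x3 y1 y2 y3 u1 u2 u3 : ℝ}
    (hn : ¬ (x2 * y3 - x3 * y2 = 0 ∧ x3 * y1 - x1 * y3 = 0 ∧ x1 * y2 - x2 * y1 = 0))
    (h0 : u1 * (x2 * y3 - x3 * y2) + u2 * (x3 * y1 - x1 * y3) + u3 * (x1 * y2 - x2 * y1) = 0) :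
    ∃ α β : ℝ, u1 • a + u2 • b + u3 • c =
      α • (x1 • a + x2 • b + x3 • c) + β • (y1 • a + y2 • b + y3 • c) := by
  have key : ∀ n p q : ℝ, n ≠ 0 → n * u1 = p * x1 + q * y1 → n * u2 = p * x2 + q * y2 →
      n * u3 = p * x3 + q * y3 → ∃ α β : ℝ, u1 • a + u2 • b + u3 • c =
      α • (x1 • a + x2 • b + x3 • c) + β • (y1 • a + y2 • b + y3 • c) := by
    intro n p q hn h1 h2 h3
    have k1 : u1 = p / n * x1 + q / n * y1 := by
      field_simp
      linarith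
    have k2 : u2 = p / n * x2 + q / n * y2 := by
      field_simp
      linarith
    have k3 : u3 = p / n * x3 + q / n * y3 := by
      field_simp
      linarith
    refine ⟨p / n, q / n, ?_⟩
    rw [k1, k2, k3]
    module
  by_cases n1 : x2 * y3 - x3 * y2 = 0
  · by_cases n2 : x3 * y1 - x1 * y3 = 0
    · have n3 : x1 * y2 - x2 * y1 ≠ 0 := fun n3 => hn ⟨n1, n2, n3⟩
      refine key _ (u1 * y2 - u2 * y1) (x1 * u2 - x2 * u1) n3 ?_ ?_ ?_
      · ring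
      · ring
      · linear_combination h0
    · refine key _ (u3 * y1 - u1 * y3) (x3 * u1 - x1 * u3) n2 ?_ ?_ ?_
      · ring
      · linear_combination h0
      · ring
  · refine key _ (u2 * y3 - u3 * y2) (x2 * u3 - x3 * u2) n1 ?_ ?_ ?_
    · linear_combination h0
    · ring
    · ring

/-- **[FN]** -/
theorem exists_fn {Ψ : Set E} {B : E →ₗ[ℝ] E →ₗ[ℝ] ℝ} {a b c : E} (hT : Tri Ψ B a b c) {x x' : E}
    (hx : x ∈ Ψ) (hx' : x' ∈ Ψ) (hxx : x ≠ x') (hxx' : x ≠ -x') : ∃ φ : E →ₗ[ℝ] ℝ, Fn Ψ x x' φ := by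
  obtain ⟨x1, x2, x3, ex⟩ := hT.coord hx
  obtain ⟨y1, y2, y3, ey⟩ := hT.coord hx'
  have hind := hT.sys.indepC hx hx' hxx hxx'
  have hn : ¬ (x2 * y3 - x3 * y2 = 0 ∧ x3 * y1 - x1 * y3 = 0 ∧ x1 * y2 - x2 * y1 = 0) := by
    rintro ⟨n1, n2, n3⟩
    have k1 := hind y1 (-x1) (by
      rw [ex, ey]
      have e1 : y1 • (x1 • a + x2 • b + x3 • c) + (-x1) • (y1 • a + y2 • b + y3 • c) =
        (-(x1 * y2 - x2 * y1)) • b + (x3 * y1 - x1 * y3) • c := by module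
      rw [e1, n3, n2]
      module)
    have k2 := hind y2 (-x2) (by
      rw [ex, ey]
      have e1 : y2 • (x1 • a + x2 • b + x3 • c) + (-x2) • (y1 • a + y2 • b + y3 • c) =
        (x1 * y2 - x2 * y1) • a + (-(x2 * y3 - x3 * y2)) • c := by module
      rw [e1, n3, n1]
      module)
    have k3 := hind y3 (-x3) (by
      rw [ex, ey]
      have e1 : y3 • (x1 • a + x2 • b + x3 • c) + (-x3) • (y1 • a + y2 • b + y3 • c) =
        (-(x3 * y1 - x1 * y3)) • a + (x2 * y3 - x3 * y2) • b := by module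
      rw [e1, n2, n1]
      module)
    have hy0 : x' = 0 := by
      rw [ey, k1.1, k2.1, k3.1]
      simp
    have h1 := hT.one x' hx'
    rw [hy0] at h1
    simp at h1
  obtain ⟨φ, f1, f2, f3⟩ := exists_form3 hT.indep (x2 * y3 - x3 * y2) (x3 * y1 - x1 * y3)
    (x1 * y2 - x2 * y1)
  have hφ : ∀ u1 u2 u3 : ℝ, φ (u1 • a + u2 • b + u3 • c) =
      u1 * (x2 * y3 - x3 * y2) + u2 * (x3 * y1 - x1 * y3) + u3 * (x1 * y2 - x2 * y1) := by
    intro u1 u2 u3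
    rw [map_add, map_add, map_smul, map_smul, map_smul, f1, f2, f3]
    simp only [smul_eq_mul]
  have hker : ∀ u1 u2 u3 : ℝ, φ (u1 • a + u2 • b + u3 • c) = 0 →
      ∃ α β : ℝ, u1 • a + u2 • b + u3 • c = α • x + β • x' := by
    intro u1 u2 u3 h0
    rw [hφ] at h0
    rw [ex, ey]
    exact ker_fn hn h0
  refine ⟨φ, ?_, ?_, ?_, ?_⟩
  · rw [ex, hφ]
    ring
  · rw [ey, hφ]
    ring
  · intro u hu h0
    obtain ⟨u1, u2, u3, eu⟩ := hT.coord hu
    rw [eu] at h0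
    obtain ⟨α, β, e⟩ := hker u1 u2 u3 h0
    exact ⟨α, β, by rw [eu, e]⟩
  · intro u hu v hv h0
    obtain ⟨u1, u2, u3, eu⟩ := hT.coord hu
    obtain ⟨v1, v2, v3, ev⟩ := hT.coord hv
    have e1 : ∀ r : ℝ, (u1 - r * v1) • a + (u2 - r * v2) • b + (u3 - r * v3) • c = u - r • v := by
      intro r
      rw [eu, ev]
      module
    obtain ⟨α, β, e⟩ := hker (u1 - φ u / φ v * v1) (u2 - φ u / φ v * v2) (u3 - φ u / φ v * v3) (by
      rw [e1, map_sub, map_smul, smul_eq_mul, div_mul_cancel₀ _ h0, sub_self])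
    refine ⟨α, β, φ u / φ v, ?_⟩
    rw [← e, e1]
    abel

end DY
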