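import Pool.Agent.Helper69.DY.W

/-!
# Block [FOOT]: the chamber at the foot of the centre on a mirror (MP_d13a5e_al)
-/

set_option autoImplicit false

namespace DY

open Set

variable {E : Type*} [AddCommGroup E] [Module ℝ E]
variable {Ψ : Set E} {B : E →ₗ[ℝ] E →ₗ[ℝ] ℝ} {a b c t : E} {ρ : E →ₗ[ℝ] ℝ}

/-- simple roots form obtuse angles -/
theorem Tri.B_nonpos (h : Tri Ψ B a b c) : B a b ≤ 0 := by
  have haC : b ∈ C01 a b c := ⟨0, 1, 0, by simp, Or.inl rfl, Or.inr le_rfl, Or.inl rfl⟩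
  have hne : b ≠ a := by
    rintro rfl
    have := h.indep 1 (-1) 0 (by module)
    linarith [this.1]
  obtain ⟨α, β, γ, e, h1, h2, h3⟩ := h.rf_posW h.hb haC hne
  have e1 : (-(2 * B a b)) • a + (1 : ℝ) • b + (0 : ℝ) • c = α • a + β • b + γ • c := by
    rw [← e]
    unfold DY.rf
    module
  obtain ⟨k1, -, -⟩ := h.coordW e1
  rcases h1 with h1 | h1 <;> linarith

theorem Tri.B_nonpos' (h : Tri Ψ B a b c) : B a c ≤ 0 := by
  have h2 : Tri Ψ B c a b := h.swapW.swapW'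
  rw [h.symm]
  exact h2.B_nonpos

theorem Tri.B_nonpos'' (h : Tri Ψ B a b c) : B b c ≤ 0 := by
  have h2 : Tri Ψ B b c a := h.swapW'.swapW
  exact h2.B_nonpos

/-- positive and negative roots are disjoint -/
theorem Tri.not_both (h : Tri Ψ B a b c) {u : E} (hu : u ∈ Ψ) (h1 : u ∈ C01 a b c)
    (h2 : -u ∈ C01 a b c) : False := by
  obtain ⟨α, β, γ, e, k1, k2, k3⟩ := h1
  obtain ⟨α', β', γ', e', l1, l2, l3⟩ := h2
  have e1 : (-α) • a + (-β) • b + (-γ) • c = α' • a + β' • b + γ' • c := by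
    rw [← e', e]
    module
  obtain ⟨m1, m2, m3⟩ := h.coordW e1
  have hα : α = 0 := by rcases k1 with k1 | k1 <;> rcases l1 with l1 | l1 <;> linarith
  have hβ : β = 0 := by rcases k2 with k2 | k2 <;> rcases l2 with l2 | l2 <;> linarith
  have hγ : γ = 0 := by rcases k3 with k3 | k3 <;> rcases l3 with l3 | l3 <;> linarith
  have h3 := h.one u hu
  rw [e, hα, hβ, hγ] at h3
  simp at h3

/-- the foot of an admissible centre on the mirror of `t` is admissible -/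
theorem Adm.foot (hT : Tri Ψ B a b c) (hA : Adm Ψ a b c ρ) (ht : t ∈ Ψ) :
    Adm Ψ a b c (ρ - ρ t • B t) := by
  have h1 : B t t = 1 := hT.one t ht
  have hv : ∀ u, (ρ - ρ t • B t) u = (ρ u + ρ (rf B t u)) / 2 := by
    intro u
    have : rf B t u = u - (2 * B t u) • t := rfl
    rw [this, map_sub, map_smul, LinearMap.sub_apply, LinearMap.smul_apply, smul_eq_mul,
      smul_eq_mul]
    ring
  -- almost all positive roots are good
  have hbad : {u | u ∈ Ψ ∧ u ∈ C01 a b c ∧ ¬ (0 < ρ u ∧ 0 < ρ (rf B t u))}.Finite := by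
    refine ((hA.neg.union (hT.inv t ht)).union (hA.neg.image (rf B t))).subset ?_
    rintro u ⟨hu, hp, hn⟩
    by_cases k1 : 0 < ρ u
    · have k2 : ρ (rf B t u) ≤ 0 := not_lt.1 fun k2 => hn ⟨k1, k2⟩
      rcases hT.pos _ (hT.refl t ht u hu) with k3 | k3
      · exact Or.inr ⟨rf B t u, ⟨hT.refl t ht u hu, k3, k2⟩, rfW_rf h1 u⟩
      · exact Or.inl (Or.inr ⟨hu, hp, k3⟩)
    · exact Or.inl (Or.inl ⟨hu, hp, not_lt.1 k1⟩)
  have hbad' : {u | u ∈ Ψ ∧ -u ∈ C01 a b c ∧ ¬ (0 < ρ (-u) ∧ 0 < ρ (rf B t (-u)))}.Finite := by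
    refine (hbad.image (fun u => -u)).subset ?_
    rintro u ⟨hu, hp, hn⟩
    exact ⟨-u, ⟨hT.neg u hu, hp, hn⟩, neg_neg u⟩
  refine ⟨fun r => ?_, hbad.subset ?_⟩
  · refine ((hbad.union hbad').union (hA.fin (2 * r))).subset ?_
    rintro u ⟨hu, hr⟩
    rcases hT.pos u hu with hp | hp
    · by_cases k : 0 < ρ u ∧ 0 < ρ (rf B t u)
      · refine Or.inr ⟨hu, ?_⟩
        rw [hv, abs_of_pos (by linarith [k.1, k.2])] at hr
        rw [abs_of_pos k.1]
        linarith [k.2]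
      · exact Or.inl (Or.inl ⟨hu, hp, k⟩)
    · by_cases k : 0 < ρ (-u) ∧ 0 < ρ (rf B t (-u))
      · refine Or.inr ⟨hu, ?_⟩
        rw [← abs_neg, ← map_neg, hv, abs_of_pos (by linarith [k.1, k.2])] at hr
        rw [← abs_neg, ← map_neg, abs_of_pos k.1]
        linarith [k.2]
      · exact Or.inl (Or.inr ⟨hu, hp, k⟩)
  · rintro u ⟨hu, hp, h0⟩
    refine ⟨hu, hp, fun k => ?_⟩
    rw [hv] at h0
    linarith [k.1, k.2]

/-- admissibility does not depend on the chamber -/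
theorem Adm.change (hT : Tri Ψ B a b c) (hA : Adm Ψ a b c ρ) {a' b' c' : E}
    (hT' : Tri Ψ B a' b' c') (hf : {u | u ∈ Ψ ∧ u ∈ C01 a b c ∧ u ∉ C01 a' b' c'}.Finite) :
    Adm Ψ a' b' c' ρ := by
  refine ⟨hA.fin, (hA.neg.union (hf.image fun u => -u)).subset ?_⟩
  rintro u ⟨hu, hp, h0⟩
  rcases hT.pos u hu with k | k
  · exact Or.inl ⟨hu, k, h0⟩
  · refine Or.inr ⟨-u, ⟨hT.neg u hu, k, fun k' => hT'.not_both hu hp k'⟩, neg_neg u⟩

/-- **[FOOT]** the chamber at the foot of the centre on the mirror of `t`, with `t` as a simple root -/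
theorem exists_foot (hT : Tri Ψ B a b c) (hA : Adm Ψ a b c ρ) (ht : t ∈ Ψ) :
    ∃ d1 d2, Tri Ψ B t d1 d2 ∧ Adm Ψ t d1 d2 ρ ∧ ρ t * B t d1 ≤ ρ d1 ∧ ρ t * B t d2 ≤ ρ d2 ∧
      {u | u ∈ Ψ ∧ u ∈ C01 a b c ∧ u ∉ C01 t d1 d2}.Finite := by
  have h1 : B t t = 1 := hT.one t ht
  have hv : ∀ u, (ρ - ρ t • B t) u = ρ u - ρ t * B t u := fun u => by
    rw [LinearMap.sub_apply, LinearMap.smul_apply, smul_eq_mul]
  obtain ⟨d1, d2, k1, k2, k3, k4⟩ := exists_chamber_wall hT (hA.foot hT ht) ht (by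
    rw [hv, h1, mul_one, sub_self])
  rw [hv] at k2 k3
  exact ⟨d1, d2, k1, hA.change hT k1 k4, by linarith, by linarith, k4⟩

end DY
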