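import Pool.Agent.Helper9.DY.Sq
import Pool.Agent.Helper9.DY.Foot
import Pool.Agent.Helper9.DY.Fn

/-!
# Pencils (MP_d13a5e_al)

`{t, h}` is a canonical pair, `b = -B t h`, and `pu b t h n = s_n t + s_{n+1} h` are the lines of the
pencil, counted from `h`.
-/

set_option autoImplicit false

namespace DY

open Set

variable {E : Type*} [AddCommGroup E] [Module ℝ E]
variable {Ψ : Set E} {B : E →ₗ[ℝ] E →ₗ[ℝ] ℝ} {t h : E} {ρ φ : E →ₗ[ℝ] ℝ} {b : ℝ}

/-- the lines of the pencil of `t, h` -/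
def pu (b : ℝ) (t h : E) (n : ℕ) : E := sq b n • t + sq b (n + 1) • h

theorem pu_zero (b : ℝ) (t h : E) : pu b t h 0 = h := by simp [pu]

theorem pu_succ (b : ℝ) (t h : E) (n : ℕ) :
    pu b t h (n + 2) = (2 * b) • pu b t h (n + 1) - pu b t h n := by
  unfold pu
  rw [sq_succ b (n + 1), sq_succ b n]
  module

theorem pu_val (f : E →ₗ[ℝ] ℝ) (b : ℝ) (t h : E) (n : ℕ) :
    f (pu b t h n) = sq b n * f t + sq b (n + 1) * f h := by
  unfold pu
  rw [map_add, map_smul, map_smul, smul_eq_mul, smul_eq_mul]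

/-- all these are roots -/
theorem pu_mem (hS : Sys Ψ B) (ht : t ∈ Ψ) (hh : h ∈ Ψ) (hb : B t h = -b) (n : ℕ) :
    pu b t h n ∈ Ψ ∧ pu b h t n ∈ Ψ := by
  have h1 := hS.one t ht
  have h2 := hS.one h hh
  have hb' : B h t = -b := by rw [hS.symm]; exact hb
  induction n with
  | zero => exact ⟨by rw [pu_zero]; exact hh, by rw [pu_zero]; exact ht⟩
  | succ n ih =>
    constructor
    · have h3 := hS.refl h hh _ ih.2
      have h4 : rf B h (pu b h t n) = pu b t h (n + 1) := by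
        unfold rf pu
        rw [map_add, map_smul, map_smul, h2, hb', smul_eq_mul, smul_eq_mul, sq_succ b n]
        module
      rwa [h4] at h3
    · have h3 := hS.refl t ht _ ih.1
      have h4 : rf B t (pu b t h n) = pu b h t (n + 1) := by
        unfold rf pu
        rw [map_add, map_smul, map_smul, h1, hb, smul_eq_mul, smul_eq_mul, sq_succ b n]
        module
      rwa [h4] at h3

/-- a canonical pair with its label -/
structure CP (Ψ : Set E) (B : E →ₗ[ℝ] E →ₗ[ℝ] ℝ) (t h : E) (b : ℝ) : Prop where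
  sys : Sys Ψ B
  ht : t ∈ Ψ
  hh : h ∈ Ψ
  canon : Canon Ψ t h
  hb : B t h = -b

namespace CP

variable (hC : CP Ψ B t h b)
include hC

theorem symm : CP Ψ B h t b :=
  ⟨hC.sys, hC.hh, hC.ht, fun u hu α β e => by
    have := hC.canon u hu β α (by rw [e, add_comm])
    tauto, by rw [hC.sys.symm]; exact hC.hb⟩

theorem mem (n : ℕ) : pu b t h n ∈ Ψ := (pu_mem hC.sys hC.ht hC.hh hC.hb n).1

/-- signs of the coefficients -/
theorem sq_sign (n : ℕ) :
    (sq b n = 0 ∧ sq b (n + 1) = 1 ∨ sq b n = 1 ∧ sq b (n + 1) = 0 ∨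
      1 ≤ sq b n ∧ 1 ≤ sq b (n + 1)) ∨
    (-sq b n = 0 ∧ -sq b (n + 1) = 1 ∨ -sq b n = 1 ∧ -sq b (n + 1) = 0 ∨
      1 ≤ -sq b n ∧ 1 ≤ -sq b (n + 1)) :=
  hC.canon _ (hC.mem n) _ _ rfl

/-- after a positive term comes zero or a term at least one -/
theorem sq_next {n : ℕ} (h0 : 0 < sq b n) : sq b (n + 1) = 0 ∨ 1 ≤ sq b (n + 1) := by
  rcases hC.sq_sign n with (⟨h1, h2⟩ | ⟨h1, h2⟩ | ⟨h1, h2⟩) | (⟨h1, h2⟩ | ⟨h1, h2⟩ | ⟨h1, h2⟩)
  · linarith only [h0, h1]
  · exact Or.inl h2
  · exact Or.inr h2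
  · linarith only [h0, h1]
  · linarith only [h0, h1]
  · linarith only [h0, h1]

theorem sq_one_le {n : ℕ} (h0 : 0 < sq b n) : 1 ≤ sq b n := by
  cases n with
  | zero => simp at h0
  | succ n =>
    rcases hC.sq_sign n with (⟨h1, h2⟩ | ⟨h1, h2⟩ | ⟨h1, h2⟩) | (⟨h1, h2⟩ | ⟨h1, h2⟩ | ⟨h1, h2⟩)
    all_goals linarith

/-- `b = 0` or `1 / 2 ≤ b` -/
theorem b_cases : b = 0 ∨ 1 / 2 ≤ b := by
  rcases hC.sq_next (n := 1) (by simp) with h1 | h1
  · rw [sq_two] at h1
    left
    linarith only [h1]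
  · rw [sq_two] at h1
    right
    linarith only [h1]

theorem b_nonneg : 0 ≤ b := by
  rcases hC.b_cases with h1 | h1 <;> linarith only [h1]

/-- **dichotomy**: infinite or finite order -/
theorem sq_dich : (1 ≤ b ∧ ∀ n, 1 ≤ sq b (n + 1)) ∨
    ∃ m, sq b (m + 2) = 0 ∧ sq b (m + 1) = 1 ∧ b < 1 ∧ ∀ k ≤ m, 1 ≤ sq b (k + 1) := by
  classical
  by_cases h : ∀ n, 1 ≤ sq b (n + 1)
  · exact Or.inl ⟨one_le_of_sq h, h⟩
  · right
    push Not at h
    have h1 := Nat.find_spec h
    have h2 := fun k hk => Nat.find_min h (m := k) hk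
    set n := Nat.find h with hn
    cases hn' : n with
    | zero =>
      rw [hn'] at h1
      simp at h1
    | succ m =>
      rw [hn'] at h1 h2
      have h3 : ∀ k ≤ m, 1 ≤ sq b (k + 1) := fun k hk => by
        have := h2 k (by omega)
        exact not_lt.1 this
      have h4 := h3 m le_rfl
      have h5 : sq b (m + 2) = 0 := by
        rcases hC.sq_next (n := m + 1) (by linarith only [h4]) with h6 | h6
        · exact h6
        · exfalso
          exact absurd h6 (not_le.2 h1)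
      refine ⟨m, h5, ?_, ?_, h3⟩
      · have h6 := sq_norm b (m + 1)
        have h7 : sq b (m + 1 + 1) = 0 := h5
        rw [h7] at h6
        nlinarith only [h4, h6]
      · by_contra hb1
        have := sq_ge_one (not_lt.1 hb1) (m + 1)
        have h7 : sq b (m + 1 + 1) = 0 := h5
        linarith only [this, h7]

/-- coordinates are unique -/
theorem coord {α β α' β' : ℝ} (e : α • t + β • h = α' • t + β' • h) : α = α' ∧ β = β' := by
  have hne : t ≠ h := by
    rintro rfl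
    have := hC.canon t hC.ht (1 / 2) (1 / 2) (by module)
    norm_num at this
  have hne' : t ≠ -h := by
    intro h1
    have := hC.canon t hC.ht (1 / 2) (-(1 / 2)) (by nth_rw 1 [h1]; rw [h1]; module)
    norm_num at this
  have h2 := hC.sys.indepC hC.ht hC.hh hne hne' (α - α') (β - β') (by
    have : (α - α') • t + (β - β') • h = (α • t + β • h) - (α' • t + β' • h) := by module
    rw [this, e, sub_self])
  exact ⟨by linarith only [h2.1], by linarith only [h2.2]⟩

end CP

theorem e0Z1 {r : ℝ} (hr : Z1 r) : 0 ≤ r := by rcases hr with hr | hr <;> linarith only [hr]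

/-- a root with nonnegative coordinates is positive -/
theorem Tri.pos_of {a b c : E} (hT : Tri Ψ B a b c) {u : E} (hu : u ∈ Ψ) {α β γ : ℝ}
    (e : u = α • a + β • b + γ • c) (h1 : 0 ≤ α) (h2 : 0 ≤ β) (h3 : 0 ≤ γ) : u ∈ C01 a b c := by
  rcases hT.pos u hu with h | ⟨α', β', γ', e', k1, k2, k3⟩
  · exact h
  · exfalso
    have e1 : (-α) • a + (-β) • b + (-γ) • c = α' • a + β' • b + γ' • c := by
      rw [← e', e]
      module
    obtain ⟨l1, l2, l3⟩ := hT.coordW e1
    have m1 : α = 0 := by linarith only [h1, l1, e0Z1 k1]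
    have m2 : β = 0 := by linarith only [h2, l2, e0Z1 k2]
    have m3 : γ = 0 := by linarith only [h3, l3, e0Z1 k3]
    have h4 := hT.one u hu
    rw [e, m1, m2, m3] at h4
    simp at h4

/-- sums of positive roots are positive -/
theorem Tri.pos_add {a b c : E} (hT : Tri Ψ B a b c) {u v w : E} (hw : w ∈ Ψ) (hu : u ∈ C01 a b c)
    (hv : v ∈ C01 a b c) {r s : ℝ} (hr : 0 ≤ r) (hs : 0 ≤ s) (e : w = r • u + s • v) :
    w ∈ C01 a b c := by
  obtain ⟨α, β, γ, e1, h1, h2, h3⟩ := hu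
  obtain ⟨α', β', γ', e2, k1, k2, k3⟩ := hv
  refine hT.pos_of hw (α := r * α + s * α') (β := r * β + s * β') (γ := r * γ + s * γ') ?_ ?_ ?_ ?_
  · rw [e, e1, e2]
    module
  · exact add_nonneg (mul_nonneg hr (e0Z1 h1)) (mul_nonneg hs (e0Z1 k1))
  · exact add_nonneg (mul_nonneg hr (e0Z1 h2)) (mul_nonneg hs (e0Z1 k2))
  · exact add_nonneg (mul_nonneg hr (e0Z1 h3)) (mul_nonneg hs (e0Z1 k3))

/-- **foot condition**: the lines of the pencil satisfy `-ρ t ≤ ρ u`, if `ρ h ≥ -b ρ t` (for `b > 1` this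
hypothesis is not needed) -/
theorem CP.foot_ge {a a' a'' : E} (hT : Tri Ψ B a a' a'') (hA : Adm Ψ a a' a'' ρ) (hC : CP Ψ B t h b)
    (htp : t ∈ C01 a a' a'') (hhp : h ∈ C01 a a' a'') (ht0 : 0 ≤ ρ t)
    (hf : b ≤ 1 → -(b * ρ t) ≤ ρ h) {n : ℕ} (h1 : 0 ≤ sq b (n + 1)) :
    -ρ t ≤ ρ (pu b t h n) := by
  have hb0 := hC.b_nonneg
  rcases le_or_gt b 1 with hb1 | hb1
  · have hf := hf hb1
    have h2 : sq b (n + 2) - sq b n ≤ 2 :=
      (abs_le.1 (sq_diff_le (b := b) (by nlinarith only [hb0, hb1]) n)).2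
    rw [sq_succ] at h2
    rw [pu_val]
    have h3 : sq b (n + 1) * (-(b * ρ t)) ≤ sq b (n + 1) * ρ h := mul_le_mul_of_nonneg_left hf h1
    have h4 : 0 ≤ ρ t * (2 - (2 * b * sq b (n + 1) - sq b n - sq b n)) :=
      mul_nonneg ht0 (by linarith only [h2])
    nlinarith only [h3, h4]
  · -- infinite order: some later line is positive at the centre
    have hpos := sq_ge_one hb1.le
    obtain ⟨k, hk⟩ : ∃ k, 0 < ρ (pu b t h (n + 1 + k)) := by
      by_contra hcon
      push Not at hcon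
      have hinj : Function.Injective fun k : ℕ => pu b t h (n + 1 + k) := by
        intro k l hkl
        have h2 : pu b t h (n + 1 + k) = pu b t h (n + 1 + l) := hkl
        obtain ⟨h3, -⟩ := hC.coord h2
        have hst : StrictMono (sq b) :=
          strictMono_nat_of_lt_succ fun n => by linarith only [(sq_incr hb1.le n).2]
        have := hst.injective h3
        omega
      refine (Set.infinite_range_of_injective hinj) (hA.neg.subset ?_)
      rintro _ ⟨k, rfl⟩
      refine ⟨hC.mem _, ?_, hcon k⟩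
      refine hT.pos_add (hC.mem _) htp hhp (r := sq b (n + 1 + k)) (s := sq b (n + 1 + k + 1)) ?_ ?_
        rfl
      · exact (sq_incr hb1.le _).1
      · exact (sq_incr hb1.le _).1
    have h2 := sq_docagne b n k
    have e1 : n + 2 + k = n + 1 + k + 1 := by omega
    rw [e1] at h2
    rw [pu_val] at hk ⊢
    have h3 : 0 < sq b (n + 1 + k + 1) := by linarith only [hpos (n + 1 + k)]
    have h4 : sq b (k + 1) ≤ sq b (n + 1 + k + 1) := sq_mono hb1.le (by omega)
    have h5 : 0 ≤ sq b (n + 1) * (sq b (n + 1 + k) * ρ t + sq b (n + 1 + k + 1) * ρ h) :=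
      mul_nonneg h1 hk.le
    have h6 : 0 ≤ ρ t * (sq b (n + 1 + k + 1) - sq b (k + 1)) := mul_nonneg ht0 (by linarith only [h4])
    -- multiply the claim by `s_{n+k+2}`
    have h7 : 0 ≤ sq b (n + 1 + k + 1) * (sq b n * ρ t + sq b (n + 1) * ρ h + ρ t) := by
      have h8 : sq b (n + 1 + k + 1) * (sq b n * ρ t + sq b (n + 1) * ρ h + ρ t) =
        sq b (n + 1) * (sq b (n + 1 + k) * ρ t + sq b (n + 1 + k + 1) * ρ h) +
          ρ t * (sq b (n + 1 + k + 1) - sq b (k + 1)) := by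
        linear_combination (-ρ t) * h2
      rw [h8]
      linarith only [h5, h6]
    have h9 := nonneg_of_mul_nonneg_right h7 h3
    linarith only [h9]

/-- neighbours: `s_{n+1} ≤ s_{n+2} + 1` -/
theorem sq_le_succ {n : ℕ} (h1 : 0 ≤ sq b n) (h2 : 0 ≤ sq b (n + 1)) : sq b n ≤ sq b (n + 1) + 1 := by
  rcases le_or_gt b 1 with hb1 | hb1
  · have := (abs_le.1 (sq_step_le hb1 h1 h2)).1
    linarith only [this]
  · have := (sq_incr hb1.le n).2
    linarith only [this]

/-- second neighbours: `s_n ≤ s_{n+2} + 2 b` -/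
theorem sq_le_succ2 {n : ℕ} (hb : 0 ≤ b) (h1 : 1 ≤ sq b (n + 1)) :
    sq b n ≤ sq b (n + 2) + 2 * b := by
  rcases le_or_gt b 1 with hb1 | hb1
  · have h2 := sq_diff b n
    have h3 : (sq b (n + 2) - sq b n) ^ 2 ≤ (2 * b) ^ 2 := by
      rw [h2]
      nlinarith only [mul_nonneg (by nlinarith only [hb, hb1] : 0 ≤ 1 - b ^ 2) (by nlinarith only [h1] : 0 ≤ sq b (n + 1) ^ 2 - 1)]
    have := (abs_le.1 (abs_le_of_sq_le_sq h3 (by linarith only [hb]))).1
    linarith only [this]
  · have h2 := (sq_incr hb1.le n).2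
    have h3 := (sq_incr hb1.le (n + 1)).2
    have e1 : n + 1 + 1 = n + 2 := rfl
    rw [e1] at h3
    linarith only [hb1, h2, h3]

/-- kill by two roots of a plane -/
theorem killS_of {x x' g h : E} (ht : t ∈ Ψ) (hφ : Fn Ψ x x' φ) (hφt : 0 < φ t) (hg : g ∈ Ψ)
    (hh : h ∈ Ψ) (hg0 : 0 < φ g) (hh0 : 0 < φ h) (hgt : g ≠ t) (hht : h ≠ t) (hρg : |ρ g| ≤ ρ t)
    (hρh : |ρ h| ≤ ρ t) (hB : Btw g t h) : KillS Ψ ρ x x' t := by
  have key : ∀ u ∈ Ψ, 0 < φ u → ∃ α β γ : ℝ, 0 < γ ∧ u = α • x + β • x' + γ • t := by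
    intro u hu h0
    obtain ⟨α, β, γ, e1⟩ := hφ.span3 u hu t ht hφt.ne'
    refine ⟨α, β, γ, ?_, e1⟩
    rw [e1, map_add, map_add, map_smul, map_smul, map_smul, hφ.zx, hφ.zx', smul_zero, smul_zero,
      zero_add, zero_add, smul_eq_mul] at h0
    exact pos_of_mul_pos_left h0 hφt.le
  exact ⟨g, hg, h, hh, hgt, hht, hρg, hρh, hB, key g hg hg0, key h hh hh0⟩

/-- **kill criterion** for the pencil of a canonical pair `{t, h}`: the line number `n + 1` is the first one
with `φ > 0`; the lower bounds `hlow` come from `CP.foot_ge` -/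
theorem CP.kill {x x' : E} (hC : CP Ψ B t h b) (ht0 : 0 < ρ t)
    (hlow : ∀ k, 0 ≤ sq b (k + 1) → -ρ t ≤ ρ (pu b t h k))
    (hφ : Fn Ψ x x' φ) (hφt : 0 < φ t) (hφh : φ h < 0) {n : ℕ}
    (hs : ∀ k ≤ n + 1, 1 ≤ sq b (k + 1))
    (hv : φ (pu b t h n) ≤ 0) (hu : 0 < φ (pu b t h (n + 1)))
    (hρ : ρ (pu b t h (n + 1)) ≤ ρ t) : KillS Ψ ρ x x' t := by
  have h1 : 0 < sq b (n + 1) := by linarith only [hs n (by omega)]
  have h2 : 0 < sq b (n + 2) := by
    have : 1 ≤ sq b (n + 1 + 1) := hs (n + 1) le_rfl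
    have e1 : n + 1 + 1 = n + 2 := rfl
    rw [e1] at this
    linarith only [this]
  have hneu : pu b t h (n + 1) ≠ t := by
    intro h3
    have h4 : sq b (n + 1) • t + sq b (n + 2) • h = (1 : ℝ) • t + (0 : ℝ) • h := by
      rw [one_smul, zero_smul, add_zero]
      exact h3
    exact h2.ne' (hC.coord h4).2
  have hnev : ∀ k, 0 < sq b (k + 1) → -pu b t h k ≠ t := by
    intro k hk h3
    have h4 : (-sq b k) • t + (-sq b (k + 1)) • h = (1 : ℝ) • t + (0 : ℝ) • h := by
      rw [one_smul, zero_smul, add_zero]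
      nth_rw 2 [← h3]
      unfold pu
      module
    have := (hC.coord h4).2
    linarith only [hk, this]
  have f2 := hlow (n + 1) h2.le
  rcases hv.lt_or_eq with hv | hv
  · -- two neighbours
    have f1 := hlow n h1.le
    have c := sq_cassini b n
    have hst := sq_le_succ (b := b) (n := n + 1) h1.le h2.le
    have hval : sq b (n + 1) * ρ (pu b t h (n + 1)) - sq b (n + 2) * ρ (pu b t h n) = ρ t := by
      rw [pu_val, pu_val]
      have e1 : n + 1 + 1 = n + 2 := rfl
      rw [e1]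
      linear_combination (ρ t) * c
    refine killS_of (g := pu b t h (n + 1)) (h := -pu b t h n) hC.ht hφ hφt (hC.mem _)
      (hC.sys.neg _ (hC.mem _)) hu (by rw [map_neg]; linarith only [hv]) hneu (hnev n h1) ?_ ?_ ?_
    · rw [abs_le]
      exact ⟨f2, hρ⟩
    · rw [map_neg, abs_neg, abs_le]
      refine ⟨f1, ?_⟩
      have h3 : sq b (n + 2) * ρ (pu b t h n) ≤ (sq b (n + 1) - 1) * ρ t := by
        have := mul_le_mul_of_nonneg_left hρ h1.le
        linarith only [hval, this]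
      have h4 : (sq b (n + 1) - 1) * ρ t ≤ sq b (n + 2) * ρ t :=
        mul_le_mul_of_nonneg_right (by linarith only [hst]) ht0.le
      exact le_of_mul_le_mul_left (h3.trans h4) h2
    · refine ⟨sq b (n + 1), sq b (n + 2), h1, h2, ?_⟩
      unfold pu
      have e1 : n + 1 + 1 = n + 2 := rfl
      rw [e1]
      have h5 : sq b (n + 1) • (sq b (n + 1) • t + sq b (n + 2) • h) +
          sq b (n + 2) • -(sq b n • t + sq b (n + 1) • h) =
          (sq b (n + 1) ^ 2 - sq b n * sq b (n + 2)) • t := by module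
      rw [h5, c, one_smul]
  · -- the plane of `x, x'` contains the line number `n`
    cases n with
    | zero =>
      rw [pu_zero] at hv
      linarith only [hφh, hv]
    | succ n =>
      have e1 : n + 1 + 1 = n + 2 := rfl
      have e2 : n + 1 + 2 = n + 3 := rfl
      rw [e1] at hu hρ f2 hneu h1
      rw [e2] at h2
      have h0 : 1 ≤ sq b (n + 1) := hs n (by omega)
      have hb0 : 0 < b := by
        have := sq_succ b n
        rcases hC.b_cases with h3 | h3
        · exfalso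
          have h4 := sq_succ b (n + 1)
          rw [h3, mul_zero, zero_mul, zero_sub] at h4
          rw [e2, ← h3] at h4
          linarith only [h2, h0, h4]
        · linarith only [h3]
      have hv' : φ (pu b t h n) = -φ (pu b t h (n + 2)) := by
        rw [pu_succ, map_sub, map_smul, hv]
        simp
      have f1 := hlow n (by linarith only [h0])
      -- `2 b t = s_{n+1} u_{n+2} - s_{n+3} u_n`
      have c1 : sq b (n + 1) * sq b (n + 2) - sq b n * sq b (n + 3) = 2 * b := by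
        have := sq_docagne b n 1
        rw [sq_two] at this
        have e3 : n + 1 + 1 = n + 2 := rfl
        have e4 : n + 2 + 1 = n + 3 := rfl
        rw [e3, e4] at this
        exact this
      have hval : sq b (n + 1) * ρ (pu b t h (n + 2)) - sq b (n + 3) * ρ (pu b t h n) =
          2 * b * ρ t := by
        rw [pu_val, pu_val]
        have e3 : n + 2 + 1 = n + 3 := rfl
        rw [e3]
        linear_combination (ρ t) * c1
      have hst := sq_le_succ2 (b := b) (n := n + 1) hb0.le (by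
        have : 1 ≤ sq b (n + 1 + 1) := hs (n + 1) (by omega)
        exact this)
      rw [e2] at hst
      refine killS_of (g := pu b t h (n + 2)) (h := -pu b t h n) hC.ht hφ hφt (hC.mem _)
        (hC.sys.neg _ (hC.mem _)) hu (by rw [map_neg, hv']; linarith only [hu]) hneu
        (hnev n (by linarith only [h0])) ?_ ?_ ?_
      · rw [abs_le]
        exact ⟨f2, hρ⟩
      · rw [map_neg, abs_neg, abs_le]
        refine ⟨f1, ?_⟩
        have h3 : sq b (n + 3) * ρ (pu b t h n) ≤ (sq b (n + 1) - 2 * b) * ρ t := by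
          have := mul_le_mul_of_nonneg_left hρ (by linarith only [h0] : 0 ≤ sq b (n + 1))
          linarith only [hval, this]
        have h4 : (sq b (n + 1) - 2 * b) * ρ t ≤ sq b (n + 3) * ρ t :=
          mul_le_mul_of_nonneg_right (by linarith only [hst]) ht0.le
        exact le_of_mul_le_mul_left (h3.trans h4) h2
      · refine ⟨sq b (n + 1) / (2 * b), sq b (n + 3) / (2 * b), by positivity, by positivity, ?_⟩
        unfold pu
        have e3 : n + 2 + 1 = n + 3 := rfl
        rw [e3]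
        have h5 : (sq b (n + 1) / (2 * b)) • (sq b (n + 2) • t + sq b (n + 3) • h) +
            (sq b (n + 3) / (2 * b)) • -(sq b n • t + sq b (n + 1) • h) =
            ((sq b (n + 1) * sq b (n + 2) - sq b n * sq b (n + 3)) / (2 * b)) • t := by
          match_scalars <;> field_simp <;> ring
        rw [h5, c1, div_self (by positivity), one_smul]

/-- **selection** of the line: there is a first line with `φ > 0`, or all lines of the pencil are on the
nonpositive side -/
theorem CP.select (hC : CP Ψ B t h b) (h0 : φ h < 0) :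
    (∃ n, (∀ k ≤ n + 1, 1 ≤ sq b (k + 1)) ∧ (∀ k ≤ n, φ (pu b t h k) ≤ 0) ∧
      0 < φ (pu b t h (n + 1))) ∨
    (1 ≤ b ∧ ∀ n, φ (pu b t h n) ≤ 0) ∨ (b < 1 ∧ φ h ≤ -(2 * b) * φ t) := by
  classical
  by_cases hall : ∀ n, (∀ k ≤ n, 1 ≤ sq b (k + 1)) → φ (pu b t h n) ≤ 0
  · right
    rcases hC.sq_dich with ⟨h1, h2⟩ | ⟨m, h1, h2, h3, h4⟩
    · exact Or.inl ⟨h1, fun n => hall n fun k _ => h2 k⟩
    · refine Or.inr ⟨h3, ?_⟩
      have h5 := hall m h4
      rw [pu_val, h2] at h5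
      have h6 : sq b m = 2 * b := by
        have := sq_succ b m
        rw [h1, h2] at this
        linarith only [this]
      rw [h6] at h5
      linarith only [h5]
  · left
    push Not at hall
    have h1 := Nat.find_spec hall
    have h2 := fun k hk => Nat.find_min hall (m := k) hk
    set n := Nat.find hall with hn
    obtain ⟨h3, h4⟩ := h1
    cases hn' : n with
    | zero =>
      rw [hn', pu_zero] at h4
      linarith only [h0, h4]
    | succ m =>
      rw [hn'] at h2 h3 h4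
      refine ⟨m, h3, fun k hk => ?_, h4⟩
      by_contra h5
      exact h2 k (by omega) ⟨fun l hl => h3 l (by omega), not_le.1 h5⟩

/-- a simple root and a positive root of the plane of the two other simple roots are canonical -/
theorem Tri.canon_opp {t d1 d2 : E} (hT : Tri Ψ B t d1 d2) (hh : h ∈ Ψ) {β γ : ℝ}
    (e : h = β • d1 + γ • d2) (hβ : 0 ≤ β) (hγ : 0 ≤ γ) : Canon Ψ t h := by
  obtain ⟨σ, s1, s2, s3⟩ := exists_form3 hT.indep 1 1 1
  have hσ : ∀ α β γ : ℝ, σ (α • t + β • d1 + γ • d2) = α + β + γ := by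
    intro α β γ
    rw [map_add, map_add, map_smul, map_smul, map_smul, s1, s2, s3]
    simp
  have hpos : ∀ u ∈ Ψ, u ∈ C01 t d1 d2 → 0 < σ u := by
    rintro u hu ⟨x, y, z, e1, h1, h2, h3⟩
    have k1 := e0Z1 h1
    have k2 := e0Z1 h2
    have k3 := e0Z1 h3
    rw [e1, hσ]
    rcases lt_or_ge 0 (x + y + z) with h4 | h4
    · exact h4
    · exfalso
      have l1 : x = 0 := by linarith only [k1, k2, k3, h4]
      have l2 : y = 0 := by linarith only [k2, k3, h4, l1]
      have l3 : z = 0 := by linarith only [k2, k3, h4, l1]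
      have := hT.one u hu
      rw [e1, l1, l2, l3] at this
      simp at this
  have hpos' : ∀ u ∈ Ψ, 0 < σ u → u ∈ C01 t d1 d2 := by
    intro u hu h0
    rcases hT.pos u hu with h1 | h1
    · exact h1
    · have := hpos _ (hT.neg u hu) h1
      rw [map_neg] at this
      linarith only [h0, this]
  have hA : Adm Ψ t d1 d2 σ := by
    refine ⟨fun r => ?_, ?_⟩
    · refine ((hT.fin r).union ((hT.fin r).image fun u => -u)).subset ?_
      rintro u ⟨hu, hr⟩
      rcases hT.pos u hu with ⟨x, y, z, e1, h1, h2, h3⟩ | ⟨x, y, z, e1, h1, h2, h3⟩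
      · refine Or.inl ⟨hu, x, y, z, e1, e0Z1 h1, e0Z1 h2, e0Z1 h3, ?_⟩
        rw [e1, hσ] at hr
        exact (le_abs_self _).trans hr
      · refine Or.inr ⟨-u, ⟨hT.neg u hu, x, y, z, e1, e0Z1 h1, e0Z1 h2, e0Z1 h3, ?_⟩, neg_neg u⟩
        rw [← abs_neg, ← map_neg, e1, hσ] at hr
        exact (le_abs_self _).trans hr
    · convert Set.finite_empty (α := E)
      ext u
      simp only [mem_ofPred_eq, mem_empty_iff_false, iff_false]
      rintro ⟨h1, h2, h3⟩
      linarith only [h3, hpos u h1 h2]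
  have hσh : 0 < σ h := hpos h hh (hT.pos_of hh (α := 0) (β := β) (γ := γ) (by rw [e]; module) le_rfl
    hβ hγ)
  have htC : t ∈ C01 t d1 d2 := ⟨1, 0, 0, by simp, Or.inr le_rfl, Or.inl rfl, Or.inl rfl⟩
  have hσt : 0 < σ t := hpos t hT.ha htC
  have hne : ∀ c : ℝ, h ≠ c • t := by
    intro c hc
    have h1 : (c : ℝ) • t + (-β) • d1 + (-γ) • d2 = 0 := by
      rw [← hc, e]
      module
    obtain ⟨l1, l2, l3⟩ := hT.indep _ _ _ h1
    rw [hc, l1, zero_smul, map_zero] at hσh
    exact lt_irrefl _ hσh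
  obtain ⟨x, hx, y, hy, hxy, ⟨x1, x2, ex⟩, ⟨y1, y2, ey⟩, hx0, hy0, hcan, hall⟩ :=
    Cn.canon_pair hT.sys (hA.cn hT) hT.ha hh hne (fun w hw _ h0 => by
      rcases hT.pos w hw with h1 | h1
      · exact absurd h0 (hpos w hw h1).ne'
      · have := hpos _ (hT.neg w hw) h1
        rw [map_neg, h0] at this
        linarith only [this])
  -- coordinates of `x, y`
  obtain ⟨p, p1, p2, ep, q0, q1, q2⟩ := hpos' x hx hx0
  obtain ⟨r, r1, r2, er, w0, w1, w2⟩ := hpos' y hy hy0
  have key : ∀ x y : E, x ∈ Ψ → y ∈ Ψ → Canon Ψ x y → (∃ p p1 p2 : ℝ, x = p • t + p1 • d1 + p2 • d2 ∧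
      0 ≤ p ∧ 0 ≤ p1 ∧ 0 ≤ p2) → (∃ p p1 p2 : ℝ, y = p • t + p1 • d1 + p2 • d2 ∧
      0 ≤ p ∧ 0 ≤ p1 ∧ 0 ≤ p2) → (∃ a b : ℝ, h = a • x + b • y ∧
      (a = 0 ∧ b = 1 ∨ a = 1 ∧ b = 0 ∨ 1 ≤ a ∧ 1 ≤ b)) → x = t → Canon Ψ t h := by
    rintro x y hx hy hcan - ⟨r, r1, r2, er, w0, w1, w2⟩ ⟨a, b, e1, h1⟩ rfl
    have h2 : (a + b * r) • x + (b * r1 - β) • d1 + (b * r2 - γ) • d2 = 0 := by
      have : (a + b * r) • x + (b * r1 - β) • d1 + (b * r2 - γ) • d2 =
        (a • x + b • (r • x + r1 • d1 + r2 • d2)) - (β • d1 + γ • d2) := by module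
      rw [this, ← er, ← e1, ← e, sub_self]
    have h3 := (hT.indep _ _ _ h2).1
    have h4 : h = y := by
      rcases h1 with ⟨k1, k2⟩ | ⟨k1, k2⟩ | ⟨k1, k2⟩
      · rw [e1, k1, k2]
        simp
      · rw [k1, k2] at h3
        linarith only [h3]
      · have := mul_nonneg (by linarith only [k2] : 0 ≤ b) w0
        linarith only [h3, k1, this]
    rw [h4]
    exact hcan
  obtain ⟨a, b, e1, h1⟩ := hall t hT.ha ⟨1, 0, by module⟩ hσt
  obtain ⟨a', b', e2, h2⟩ := hall h hh ⟨0, 1, by module⟩ hσh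
  have hcase : x = t ∨ y = t := by
    rcases h1 with ⟨k1, k2⟩ | ⟨k1, k2⟩ | ⟨k1, k2⟩
    · right
      rw [e1, k1, k2]
      simp
    · left
      rw [e1, k1, k2]
      simp
    · exfalso
      have h3 : (a * p + b * r - 1) • t + (a * p1 + b * r1) • d1 + (a * p2 + b * r2) • d2 = 0 := by
        have : (a * p + b * r - 1) • t + (a * p1 + b * r1) • d1 + (a * p2 + b * r2) • d2 =
          (a • (p • t + p1 • d1 + p2 • d2) + b • (r • t + r1 • d1 + r2 • d2)) - t := by module
        rw [this, ← ep, ← er, ← e1, sub_self]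
      obtain ⟨l1, l2, l3⟩ := hT.indep _ _ _ h3
      have m1 := mul_nonneg (by linarith only [k1] : 0 ≤ a) (e0Z1 q1)
      have m2 := mul_nonneg (by linarith only [k2] : 0 ≤ b) (e0Z1 w1)
      have m3 := mul_nonneg (by linarith only [k1] : 0 ≤ a) (e0Z1 q2)
      have m4 := mul_nonneg (by linarith only [k2] : 0 ≤ b) (e0Z1 w2)
      have n1 : p1 = 0 := (mul_eq_zero.1 (by linarith only [l2, m1, m2] : a * p1 = 0)).resolve_left (by linarith only [k1])
      have n2 : r1 = 0 := (mul_eq_zero.1 (by linarith only [l2, m1, m2] : b * r1 = 0)).resolve_left (by linarith only [k2])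
      have n3 : p2 = 0 := (mul_eq_zero.1 (by linarith only [l3, m3, m4] : a * p2 = 0)).resolve_left (by linarith only [k1])
      have n4 : r2 = 0 := (mul_eq_zero.1 (by linarith only [l3, m3, m4] : b * r2 = 0)).resolve_left (by linarith only [k2])
      have o1 : x = p • t := by rw [ep, n1, n3]; module
      have o2 : y = r • t := by rw [er, n2, n4]; module
      have hp1 : p = 1 := by
        have h4 := hT.one x hx
        rw [o1, map_smul, map_smul, LinearMap.smul_apply, hT.one t hT.ha, smul_eq_mul, smul_eq_mul,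
          mul_one] at h4
        nlinarith only [h4, e0Z1 q0]
      have hr1 : r = 1 := by
        have h4 := hT.one y hy
        rw [o2, map_smul, map_smul, LinearMap.smul_apply, hT.one t hT.ha, smul_eq_mul, smul_eq_mul,
          mul_one] at h4
        nlinarith only [h4, e0Z1 w0]
      exact hxy (by rw [o1, o2, hp1, hr1])
  have sw : ∀ a b : ℝ, (a = 0 ∧ b = 1 ∨ a = 1 ∧ b = 0 ∨ 1 ≤ a ∧ 1 ≤ b) →
      (b = 0 ∧ a = 1 ∨ b = 1 ∧ a = 0 ∨ 1 ≤ b ∧ 1 ≤ a) := fun a b h7 =>
    h7.elim (fun h9 => Or.inr (Or.inl h9.symm)) fun h8 => h8.elim (fun h9 => Or.inl h9.symm)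
      fun h9 => Or.inr (Or.inr h9.symm)
  rcases hcase with h3 | h3
  · exact key x y hx hy hcan ⟨p, p1, p2, ep, e0Z1 q0, e0Z1 q1, e0Z1 q2⟩
      ⟨r, r1, r2, er, e0Z1 w0, e0Z1 w1, e0Z1 w2⟩ ⟨a', b', e2, h2⟩ h3
  · exact key y x hy hx (fun u hu α β e => by
      have := hcan u hu β α (by rw [e, add_comm])
      exact this.imp (sw _ _) (sw _ _)) ⟨r, r1, r2, er, e0Z1 w0, e0Z1 w1, e0Z1 w2⟩
      ⟨p, p1, p2, ep, e0Z1 q0, e0Z1 q1, e0Z1 q2⟩ ⟨b', a', by rw [e2, add_comm], sw _ _ h2⟩ h3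

/-- the canonical pair `{t, h}` for a positive root `h` of the plane of the two other simple roots -/
theorem Tri.cp_opp {t d1 d2 : E} (hT : Tri Ψ B t d1 d2) (hh : h ∈ Ψ) {β γ : ℝ}
    (e : h = β • d1 + γ • d2) (hβ : 0 ≤ β) (hγ : 0 ≤ γ) : CP Ψ B t h (-B t h) :=
  ⟨hT.sys, hT.ha, hh, hT.canon_opp hh e hβ hγ, by rw [neg_neg]⟩

/-- the pencil of two simple roots -/
theorem Tri.cp {t d1 d2 : E} (hT : Tri Ψ B t d1 d2) : CP Ψ B t d1 (-B t d1) :=
  hT.cp_opp hT.hb (β := 1) (γ := 0) (by module) zero_le_one le_rfl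

theorem Tri.cp' {t d1 d2 : E} (hT : Tri Ψ B t d1 d2) : CP Ψ B t d2 (-B t d2) :=
  hT.cp_opp hT.hc (β := 0) (γ := 1) (by module) le_rfl zero_le_one

end DY
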