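import Pool.Agent.Helper9.DY.CaseII

/-!
# The criterion K (MP_d13a5e_al)

Let `l = sq c (k + 1) • n + sq c k • t` be the first root of the pencil of `t` and `n` with `φ l > 0`, and
`l = λ x + μ x' + φ(l) t`. If `λ, μ, 0 ≤ 1 - φ(l)`, the flat of `t` and `n` kills.
-/

set_option autoImplicit false

namespace DY

open Set

variable {E : Type*} [AddCommGroup E] [Module ℝ E]
variable {Ψ : Set E} {B : E →ₗ[ℝ] E →ₗ[ℝ] ℝ} {ρ φ : E →ₗ[ℝ] ℝ} {t d1 d2 x x' : E}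

/-- **criterion K**, general form: `l = sq c (k + 1) • n + sq c k • t = λ x + μ x' + φ(l) t` -/
theorem Loc.kcrit (L : Loc Ψ B ρ φ t d1 d2 x x') {n : E} (hn : n ∈ Ψ) (hp : n ∈ C01 t d1 d2) (hne : n ≠ t)
    (hf : φ n < 0) {k : ℕ} (hs : ∀ i ≤ k, 0 < sq (-B t n) (i + 1))
    (hm : ∀ i < k, sq (-B t n) (i + 1) * φ n + sq (-B t n) i ≤ 0)
    (hpos : 0 < sq (-B t n) (k + 1) * φ n + sq (-B t n) k) {lam mu : ℝ}
    (e : sq (-B t n) (k + 1) • n + sq (-B t n) k • t = lam • x + mu • x' +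
      (sq (-B t n) (k + 1) * φ n + sq (-B t n) k) • t)
    (h1 : lam ≤ 1 - (sq (-B t n) (k + 1) * φ n + sq (-B t n) k))
    (h2 : mu ≤ 1 - (sq (-B t n) (k + 1) * φ n + sq (-B t n) k))
    (h3 : sq (-B t n) (k + 1) * φ n + sq (-B t n) k ≤ 1) : False := by
  have hnk := (L.str n hn hp hne).nk hf k hs hm hpos
  have hρ := congrArg ρ e
  simp only [map_add, map_smul, smul_eq_mul, L.rt, mul_one] at hρ
  set f := sq (-B t n) (k + 1) * φ n + sq (-B t n) k with hfdef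
  have r0 := L.rx
  have r1 := L.rx'
  have r2 := L.sum
  have a1 : lam * ρ x ≤ (1 - f) * ρ x := mul_le_mul_of_nonneg_right h1 r0
  have a2 : mu * ρ x' ≤ (1 - f) * ρ x' := mul_le_mul_of_nonneg_right h2 r1
  have a3 : (1 - f) * (ρ x + ρ x') ≤ (1 - f) * 1 := mul_le_mul_of_nonneg_left r2 (by linarith)
  nlinarith

/-- **criterion K** at the vertex `V_2`, coordinates: `(1 - φ(q)) Δ ≥ s_j x1'` -/
theorem Xs.kcrit {g x1 x2 g' x1' x2' : ℝ} (X : Xs Ψ B ρ φ t d1 d2 x x' g x1 x2 g' x1' x2') {k : ℕ}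
    (hs : ∀ i ≤ k, 0 < sq (-B t d2) (i + 1))
    (hm : ∀ i < k, sq (-B t d2) (i + 1) * φ d2 + sq (-B t d2) i ≤ 0)
    (hpos : 0 < sq (-B t d2) (k + 1) * φ d2 + sq (-B t d2) k)
    (hK : sq (-B t d2) (k + 1) * x1' ≤
      (1 - (sq (-B t d2) (k + 1) * φ d2 + sq (-B t d2) k)) * (x2 * x1' - x1 * x2')) : False := by
  have hne : d2 ≠ t := by
    intro h
    have h1 := X.h2
    rw [h, X.L.ft] at h1
    linarith
  have hp : d2 ∈ C01 t d1 d2 := ⟨0, 0, 1, by simp, Or.inl rfl, Or.inl rfl, Or.inr le_rfl⟩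
  have hnk := (X.L.str d2 X.L.tri.hc hp hne).nk X.h2 k hs hm hpos
  have hsk := hs k le_rfl
  have hD : 0 < x2 * x1' - x1 * x2' := by linarith [X.st]
  set s := sq (-B t d2) (k + 1) with hsdef
  set s0 := sq (-B t d2) k with hs0def
  -- `φ x = 0`, `φ x' = 0`
  have f1 : g + x1 * φ d1 + x2 * φ d2 = 0 := by
    have := X.c.fz
    linarith
  have f2 : g' + x1' * φ d1 + x2' * φ d2 = 0 := by
    have := X.c'.fz
    linarith
  have r0 := X.L.rx
  have r1 := X.L.rx'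
  have r2 := X.L.sum
  rw [X.rx] at r0
  rw [X.rx'] at r1
  rw [X.rx, X.rx'] at r2
  have key : (x2 * x1' - x1 * x2') * (s * ρ d2 + s0) =
      s * x1' * (g + x1 * ρ d1 + x2 * ρ d2) - s * x1 * (g' + x1' * ρ d1 + x2' * ρ d2) +
        (x2 * x1' - x1 * x2') * (s * φ d2 + s0) := by
    linear_combination (s * x1) * f2 - (s * x1') * f1
  have e1 : s * x1' * (g + x1 * ρ d1 + x2 * ρ d2) ≤ s * x1' * 1 :=
    mul_le_mul_of_nonneg_left (by linarith) (mul_nonneg hsk.le (by linarith [X.p1']))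
  have e2 : 0 ≤ s * x1 * (g' + x1' * ρ d1 + x2' * ρ d2) :=
    mul_nonneg (mul_nonneg hsk.le (by linarith [X.p1])) r1
  have e3 := mul_lt_mul_of_pos_left hnk hD
  nlinarith

end DY
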