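import Pool.Agent.Helper9.DY.CaseII

/-!
# Assembly of the nongap case of case II (MP_d13a5e_al)

`Good c f k`: `k` is the first index with `φ (pc k) > 0` in a pencil with `c = -B(t,n)`, `f = φ n`;
`Beyond c f`: there is no such index.
-/

set_option autoImplicit false

namespace DY

open Set

variable {E : Type*} [AddCommGroup E] [Module ℝ E]

/-- `k` is the first index with `φ (pc k) > 0` -/
structure Good (c f : ℝ) (k : ℕ) : Prop where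
  hs : ∀ i ≤ k, 0 < sq c (i + 1)
  hm : ∀ i < k, sq c (i + 1) * f + sq c i ≤ 0
  hpos : 0 < sq c (k + 1) * f + sq c k

/-- no index with `φ (pc k) > 0` -/
def Beyond (c f : ℝ) : Prop :=
  ∀ k, (∀ i ≤ k, 0 < sq c (i + 1)) → sq c (k + 1) * f + sq c k ≤ 0

theorem good_or_beyond (c f : ℝ) : (∃ k, Good c f k) ∨ Beyond c f := by
  classical
  by_cases h : ∃ k, (∀ i ≤ k, 0 < sq c (i + 1)) ∧ 0 < sq c (k + 1) * f + sq c k
  · left
    obtain ⟨h1, h2⟩ := Nat.find_spec h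
    refine ⟨Nat.find h, h1, fun i hi => ?_, h2⟩
    by_contra hcon
    exact Nat.find_min h hi ⟨fun j hj => h1 j (by omega), not_le.1 hcon⟩
  · right
    intro k hk
    by_contra hcon
    exact h ⟨k, hk, not_le.1 hcon⟩

/-- `f < 0` excludes the index `0` -/
theorem Good.pos {c f : ℝ} {k : ℕ} (h : Good c f k) (hf : f < 0) : 1 ≤ k := by
  rcases Nat.eq_zero_or_pos k with h0 | h0
  · exfalso
    subst h0
    have := h.hpos
    have e0 : sq c 0 = 0 := rfl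
    have e1 : sq c (0 + 1) = 1 := rfl
    rw [e0, e1] at this
    linarith
  · exact h0

/-- the value at a good pencil -/
theorem Good.nk {c f r : ℝ} {k : ℕ} (h : Good c f k) (hS : Str c f r) (hf : f < 0) :
    1 < sq c (k + 1) * r + sq c k :=
  hS.nk hf k h.hs h.hm h.hpos

/-- index `1`: the value is positive -/
theorem Good.nk_one {c f r : ℝ} (h : Good c f 1) (hS : Str c f r) (hf : f < 0) : 0 < r := by
  have h1 := h.nk hS hf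
  have e1 : sq c 1 = 1 := rfl
  rw [e1] at h1
  have h2 := h.hs 1 le_rfl
  have h3 : 0 < sq c (1 + 1) * r := by linarith
  exact (mul_pos_iff_of_pos_left h2).1 h3

/-- the data of the nongap case and an additional condition `P` on `c_h = -B(t,h)`, `φ h`, `-B(t,d2)`, `φ d2` -/
def NGP (Ψ : Set E) (B : E →ₗ[ℝ] E →ₗ[ℝ] ℝ) (P : ℝ → ℝ → ℝ → ℝ → Prop) : Prop :=
  ∀ (ρ φ : E →ₗ[ℝ] ℝ) (t d1 d2 x x' : E) (g x1 x2 g' x1' x2' be1 be2 : ℝ),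
    Xs Ψ B ρ φ t d1 d2 x x' g x1 x2 g' x1' x2' →
    ORt Ψ B d1 d2 be1 be2 → 1 ≤ be1 → be1 * φ d1 + be2 * φ d2 < 0 →
    ((∃ al1 al2 : ℝ, OFA Ψ B φ d1 d2 al1 al2 be1 be2) ∨ 1 ≤ -B d1 d2) →
    x1 * be2 ≤ x2 * be1 → 1 ≤ g' →
    P (be1 * -B t d1 + be2 * -B t d2) (be1 * φ d1 + be2 * φ d2) (-B t d2) (φ d2) → False

/-- `F` beyond `V_2` -/
def NGb (Ψ : Set E) (B : E →ₗ[ℝ] E →ₗ[ℝ] ℝ) : Prop :=
  NGP Ψ B fun _ _ c2 f2 => Beyond c2 f2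

/-- `F` good at `V_2`, index `1` at `h` (so `0 < ρ h`) -/
def NG1 (Ψ : Set E) (B : E →ₗ[ℝ] E →ₗ[ℝ] ℝ) : Prop :=
  NGP Ψ B fun ch fh c2 f2 => (∃ k2, Good c2 f2 k2) ∧ Good ch fh 1

/-- `F` good at `V_2`, index `k ≥ 2` at `h` -/
def NGi (Ψ : Set E) (B : E →ₗ[ℝ] E →ₗ[ℝ] ℝ) : Prop :=
  NGP Ψ B fun ch fh c2 f2 => (∃ k2, Good c2 f2 k2) ∧ ∃ k, 2 ≤ k ∧ Good ch fh k

/-- `F` good at `V_2`, beyond `<t,h>` -/
def NGinf (Ψ : Set E) (B : E →ₗ[ℝ] E →ₗ[ℝ] ℝ) : Prop :=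
  NGP Ψ B fun ch fh c2 f2 => (∃ k2, Good c2 f2 k2) ∧ Beyond ch fh

/-- **assembly of the nongap case** -/
theorem ng_of {Ψ : Set E} {B : E →ₗ[ℝ] E →ₗ[ℝ] ℝ} (hb : NGb Ψ B) (h1 : NG1 Ψ B) (hi : NGi Ψ B)
    (hinf : NGinf Ψ B) : NGStat Ψ B := by
  intro ρ φ t d1 d2 x x' g x1 x2 g' x1' x2' be1 be2 X rh hbe fh alt hu hg
  rcases good_or_beyond (-B t d2) (φ d2) with h2 | h2
  · rcases good_or_beyond (be1 * -B t d1 + be2 * -B t d2) (be1 * φ d1 + be2 * φ d2) with ⟨k, hk⟩ | hh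
    · have hk1 := hk.pos fh
      rcases hk1.eq_or_lt with h3 | h3
      · subst h3
        exact h1 _ _ _ _ _ _ _ _ _ _ _ _ _ _ _ X rh hbe fh alt hu hg ⟨h2, hk⟩
      · exact hi _ _ _ _ _ _ _ _ _ _ _ _ _ _ _ X rh hbe fh alt hu hg ⟨h2, k, h3, hk⟩
    · exact hinf _ _ _ _ _ _ _ _ _ _ _ _ _ _ _ X rh hbe fh alt hu hg ⟨h2, hh⟩
  · exact hb _ _ _ _ _ _ _ _ _ _ _ _ _ _ _ X rh hbe fh alt hu hg h2

section

variable {Ψ : Set E} {B : E →ₗ[ℝ] E →ₗ[ℝ] ℝ} {ρ φ : E →ₗ[ℝ] ℝ} {t d1 d2 x x' : E}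

/-- the pencil of `t` and an `O`-root `h = be1 d1 + be2 d2` -/
theorem Loc.str_h (L : Loc Ψ B ρ φ t d1 d2 x x') {be1 be2 : ℝ} (rh : ORt Ψ B d1 d2 be1 be2) :
    Str (be1 * -B t d1 + be2 * -B t d2) (be1 * φ d1 + be2 * φ d2) (be1 * ρ d1 + be2 * ρ d2) := by
  have hne : be1 • d1 + be2 • d2 ≠ t := by
    intro h
    obtain ⟨h1, -, -⟩ := L.tri.indep 1 (-be1) (-be2) (by
      have : (1 : ℝ) • t + -be1 • d1 + -be2 • d2 = t - (be1 • d1 + be2 • d2) := by module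
      rw [this, h, sub_self])
    norm_num at h1
  have h1 := L.str _ rh.mem ⟨0, be1, be2, by simp, Or.inl rfl, rh.z1, rh.z2⟩ hne
  have e1 : -B t (be1 • d1 + be2 • d2) = be1 * -B t d1 + be2 * -B t d2 := by
    simp only [map_add, map_smul, smul_eq_mul]
    ring
  have e2 : φ (be1 • d1 + be2 • d2) = be1 * φ d1 + be2 * φ d2 := by
    simp only [map_add, map_smul, smul_eq_mul]
  have e3 : ρ (be1 • d1 + be2 • d2) = be1 * ρ d1 + be2 * ρ d2 := by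
    simp only [map_add, map_smul, smul_eq_mul]
  rw [e1, e2, e3] at h1
  exact h1

/-- the pencil of `t` and `d2` -/
theorem Loc.str_2 (L : Loc Ψ B ρ φ t d1 d2 x x') : Str (-B t d2) (φ d2) (ρ d2) := by
  have hne : d2 ≠ t := by
    intro h
    obtain ⟨h1, -, -⟩ := L.tri.indep 1 0 (-1) (by
      have : (1 : ℝ) • t + (0 : ℝ) • d1 + (-1 : ℝ) • d2 = t - d2 := by module
      rw [this, h, sub_self])
    norm_num at h1
  exact L.str _ L.tri.hc ⟨0, 0, 1, by simp, Or.inl rfl, Or.inl rfl, Or.inr le_rfl⟩ hne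

/-- the final step: `ρ x > 1` is impossible, `ρ x = 1` only with `ρ x' = 0` -/
theorem Xs.le_one {g x1 x2 g' x1' x2' : ℝ} (X : Xs Ψ B ρ φ t d1 d2 x x' g x1 x2 g' x1' x2') :
    g + x1 * ρ d1 + x2 * ρ d2 ≤ 1 ∧ 0 ≤ g + x1 * ρ d1 + x2 * ρ d2 ∧ 0 ≤ g' + x1' * ρ d1 + x2' * ρ d2 ∧
      (g + x1 * ρ d1 + x2 * ρ d2) + (g' + x1' * ρ d1 + x2' * ρ d2) ≤ 1 := by
  have r0 := X.L.rx
  have r1 := X.L.rx'
  have r2 := X.L.sum
  rw [X.rx] at r0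
  rw [X.rx'] at r1
  rw [X.rx, X.rx'] at r2
  exact ⟨by linarith, r0, r1, r2⟩

end

end DY
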