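import Pool.Agent.Helper9.DY.Pencil
import Pool.Agent.Helper7.DY.Loc

/-!
# Block [STR]: the pencils of `t` and a positive root (MP_d13a5e_al)
-/

set_option autoImplicit false

namespace DY

open Set

variable {E : Type*} [AddCommGroup E] [Module ℝ E]
variable {Ψ : Set E} {B : E →ₗ[ℝ] E →ₗ[ℝ] ℝ} {t n d1 d2 x x' : E} {ρ φ : E →ₗ[ℝ] ℝ} {c : ℝ}

theorem pc_eq (c : ℝ) (n t : E) (k : ℕ) : pc c n t k = pu c t n k := by
  unfold pc pu
  rw [add_comm]

theorem pc_val (f : E →ₗ[ℝ] ℝ) (c : ℝ) (n t : E) (k : ℕ) :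
    f (pc c n t k) = sq c (k + 1) * f n + sq c k * f t := by
  unfold pc
  rw [map_add, map_smul, map_smul, smul_eq_mul, smul_eq_mul]

/-- Cassini: `s_k ≥ 1` if the next term is nonnegative -/
theorem sq_ge_of_pos {k : ℕ} (h0 : 0 ≤ sq c k) (h1 : 0 < sq c (k + 1)) (h2 : 0 ≤ sq c (k + 2)) :
    1 ≤ sq c (k + 1) := by
  have := sq_cassini c k
  nlinarith [mul_nonneg h0 h2]

/-- the data of a pencil of `t` with a positive root -/
private structure PN (Ψ : Set E) (B : E →ₗ[ℝ] E →ₗ[ℝ] ℝ) (ρ : E →ₗ[ℝ] ℝ) (t d1 d2 n : E) (c : ℝ) :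
    Prop where
  tri : Tri Ψ B t d1 d2
  adm : Adm Ψ t d1 d2 ρ
  rt : ρ t = 1
  hn : n ∈ Ψ
  hp : n ∈ C01 t d1 d2
  hne : n ≠ t
  hc : B t n = -c
  foot : -c ≤ ρ n

namespace PN

variable (h : PN Ψ B ρ t d1 d2 n c)
include h

omit h in
private theorem tpos : t ∈ C01 t d1 d2 := ⟨1, 0, 0, by simp, Or.inr le_rfl, Or.inl rfl, Or.inl rfl⟩

private theorem mem (k : ℕ) : pc c n t k ∈ Ψ := by
  rw [pc_eq]
  exact (pu_mem h.tri.sys h.tri.ha h.hn h.hc k).1

private theorem coord {α β α' β' : ℝ} (e : α • n + β • t = α' • n + β' • t) : α = α' ∧ β = β' := by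
  have hne' : n ≠ -t := by
    intro h1
    have h2 := h.hp
    rw [h1] at h2
    exact h.tri.not_both h.tri.ha tpos h2
  have h2 := h.tri.sys.indepC h.hn h.tri.ha h.hne hne' (α - α') (β - β') (by
    have : (α - α') • n + (β - β') • t = (α • n + β • t) - (α' • n + β' • t) := by module
    rw [this, e, sub_self])
  exact ⟨by linarith [h2.1], by linarith [h2.2]⟩

private theorem pos {k : ℕ} (h0 : 0 ≤ sq c k) (h1 : 0 ≤ sq c (k + 1)) : pc c n t k ∈ C01 t d1 d2 :=
  h.tri.pos_add (h.mem k) h.hp tpos h1 h0 rfl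

/-- infinite order: some late line is positive at the centre -/
private theorem late (hc1 : 1 ≤ c) (N : ℕ) : ∃ k, 0 < ρ (pc c n t (N + k)) := by
  by_contra hcon
  push Not at hcon
  have hinj : Function.Injective fun k : ℕ => pc c n t (N + k) := by
    intro k l hkl
    have h2 : pc c n t (N + k) = pc c n t (N + l) := hkl
    obtain ⟨-, h3⟩ := h.coord h2
    have hst : StrictMono (sq c) :=
      strictMono_nat_of_lt_succ fun n => by linarith [(sq_incr hc1 n).2]
    have := hst.injective h3
    omega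
  refine (Set.infinite_range_of_injective hinj) (h.adm.neg.subset ?_)
  rintro _ ⟨k, rfl⟩
  exact ⟨h.mem _, h.pos (sq_incr hc1 _).1 (sq_incr hc1 _).1, hcon k⟩

private theorem low {k : ℕ} (hs : ∀ i ≤ k, 0 < sq c (i + 1)) :
    -1 ≤ sq c (k + 1) * ρ n + sq c k := by
  have h0 : 0 ≤ sq c (k + 1) := (hs k le_rfl).le
  rcases le_or_gt c 1 with hc1 | hc1
  · have h3 : sq c (k + 1) * (-c) ≤ sq c (k + 1) * ρ n := mul_le_mul_of_nonneg_left h.foot h0
    rcases le_or_gt (-1) c with hc2 | hc2
    · have h2 : sq c (k + 2) - sq c k ≤ 2 :=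
        (abs_le.1 (sq_diff_le (b := c) (by nlinarith) k)).2
      rw [sq_succ] at h2
      linarith
    · cases k with
      | zero =>
        simp only [sq_zero, zero_add, sq_one] at h3 ⊢
        linarith
      | succ k =>
        have h4 : 0 < sq c (1 + 1) := hs 1 (by omega)
        have h5 : sq c (1 + 1) = 2 * c := sq_two
        linarith
  · obtain ⟨m, hk⟩ := h.late hc1.le (k + 1)
    have h2 := sq_docagne c k m
    have e1 : k + 2 + m = k + 1 + m + 1 := by omega
    rw [e1] at h2
    rw [pc_val, h.rt, mul_one] at hk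
    have h3 : 0 < sq c (k + 1 + m + 1) := by linarith [sq_ge_one hc1.le (k + 1 + m)]
    have h4 : sq c (m + 1) ≤ sq c (k + 1 + m + 1) := sq_mono hc1.le (by omega)
    have h5 := mul_nonneg h0 hk.le
    have h7 : 0 ≤ sq c (k + 1 + m + 1) * (sq c k + sq c (k + 1) * ρ n + 1) := by
      have h8 : sq c (k + 1 + m + 1) * (sq c k + sq c (k + 1) * ρ n + 1) =
        sq c (k + 1) * (sq c (k + 1 + m + 1) * ρ n + sq c (k + 1 + m)) +
          (sq c (k + 1 + m + 1) - sq c (m + 1)) := by
        linear_combination (-1 : ℝ) * h2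
      rw [h8]
      linarith
    have h9 := nonneg_of_mul_nonneg_right h7 h3
    linarith

private theorem ult (hc1 : 1 ≤ c) : 0 ≤ 1 + ρ n ^ 2 + 2 * c * ρ n := by
  by_contra hcon
  rw [not_le] at hcon
  -- all values have the same sign
  have h1 : ∀ k, ρ (pc c n t k) ^ 2 + ρ (pc c n t (k + 1)) ^ 2 -
      2 * c * ρ (pc c n t k) * ρ (pc c n t (k + 1)) = 1 + ρ n ^ 2 + 2 * c * ρ n := by
    intro k
    induction k with
    | zero =>
      rw [pc_val, pc_val, h.rt]
      simp only [sq_zero, zero_add, sq_one]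
      have : sq c (1 + 1) = 2 * c := sq_two
      rw [this]
      ring
    | succ k ih =>
      have e1 : ρ (pc c n t (k + 1 + 1)) =
          2 * c * ρ (pc c n t (k + 1)) - ρ (pc c n t k) := by
        rw [pc_val, pc_val, pc_val, h.rt]
        have e2 : k + 1 + 1 + 1 = k + 1 + 2 := rfl
        have e3 : k + 1 + 1 = k + 2 := rfl
        rw [e2, e3, sq_succ c (k + 1), sq_succ c k]
        ring
      rw [e1]
      linear_combination ih
  have hn0 : ρ n < 0 := by
    by_contra h2
    have := mul_nonneg (mul_nonneg (by norm_num : (0:ℝ) ≤ 2) (by linarith : 0 ≤ c)) (not_lt.1 h2)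
    nlinarith [sq_nonneg (ρ n)]
  have h2 : ∀ k, ρ (pc c n t k) < 0 := by
    intro k
    induction k with
    | zero =>
      rw [pc_val]
      simp only [sq_zero, zero_add, sq_one]
      linarith
    | succ k ih =>
      have h3 := h1 k
      by_contra h4
      rw [not_lt] at h4
      have h5 : 0 ≤ -(2 * c * ρ (pc c n t k) * ρ (pc c n t (k + 1))) := by
        have := mul_nonneg (mul_nonneg (by linarith : 0 ≤ 2 * c) (neg_nonneg.2 ih.le)) h4
        linarith
      nlinarith [sq_nonneg (ρ (pc c n t k)), sq_nonneg (ρ (pc c n t (k + 1)))]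
  obtain ⟨k, hk⟩ := h.late hc1 0
  linarith [h2 (0 + k)]

private theorem nk (ft : φ t = 1) (sp : ∀ u ∈ Ψ, ∃ α β : ℝ, u = α • x + β • x' + φ u • t)
    (hk : ¬ KillS Ψ ρ x x' t) (hf : φ n < 0) (k : ℕ) (hs : ∀ i ≤ k, 0 < sq c (i + 1))
    (hv : ∀ i < k, sq c (i + 1) * φ n + sq c i ≤ 0) (hu : 0 < sq c (k + 1) * φ n + sq c k) :
    1 < sq c (k + 1) * ρ n + sq c k := by
  by_contra hρ
  rw [not_lt] at hρ
  apply hk
  -- general kill
  have kill : ∀ g ∈ Ψ, ∀ g' ∈ Ψ, 0 < φ g → 0 < φ g' → g ≠ t → g' ≠ t → |ρ g| ≤ 1 → |ρ g'| ≤ 1 →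
      Btw g t g' → KillS Ψ ρ x x' t := by
    intro g hg g' hg' h1 h2 h3 h4 h5 h6 h7
    obtain ⟨α, β, e⟩ := sp g hg
    obtain ⟨α', β', e'⟩ := sp g' hg'
    exact ⟨g, hg, g', hg', h3, h4, by rw [h.rt]; exact h5, by rw [h.rt]; exact h6, h7,
      ⟨α, β, _, h1, e⟩, ⟨α', β', _, h2, e'⟩⟩
  have vφ : ∀ i, φ (pc c n t i) = sq c (i + 1) * φ n + sq c i := fun i => by
    rw [pc_val, ft, mul_one]
  have vρ : ∀ i, ρ (pc c n t i) = sq c (i + 1) * ρ n + sq c i := fun i => by
    rw [pc_val, h.rt, mul_one]
  have hne : ∀ i, 0 < sq c (i + 1) → pc c n t i ≠ t := by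
    intro i hi h3
    have h4 : sq c (i + 1) • n + sq c i • t = (0 : ℝ) • n + (1 : ℝ) • t := by
      rw [one_smul, zero_smul, zero_add]
      exact h3
    exact hi.ne' (h.coord h4).1
  have hne' : ∀ i, 0 < sq c (i + 1) → -pc c n t i ≠ t := by
    intro i hi h3
    have h4 : (-sq c (i + 1)) • n + (-sq c i) • t = (0 : ℝ) • n + (1 : ℝ) • t := by
      rw [one_smul, zero_smul, zero_add]
      nth_rw 2 [← h3]
      unfold pc
      module
    have := (h.coord h4).1
    linarith
  rw [← vφ] at hu
  rw [← vρ] at hρ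
  cases k with
  | zero =>
    rw [vφ] at hu
    simp only [sq_zero, zero_add, sq_one] at hu
    linarith
  | succ k =>
    have e1 : k + 1 + 1 = k + 2 := rfl
    have s1 := hs k (by omega)
    have s2 := hs (k + 1) le_rfl
    rw [e1] at s2
    have s0 : 0 ≤ sq c k := by
      cases k with
      | zero => simp
      | succ k => exact (hs k (by omega)).le
    have v1 := hv k (by omega)
    rw [← vφ] at v1
    have l2 : -1 ≤ ρ (pc c n t (k + 1)) := by rw [vρ]; exact h.low hs
    rcases v1.lt_or_eq with v1 | v1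
    · have l1 : -1 ≤ ρ (pc c n t k) := by rw [vρ]; exact h.low fun i hi => hs i (by omega)
      have c1 := sq_cassini c k
      have hst := sq_le_succ (b := c) (n := k + 1) s1.le s2.le
      have hval : sq c (k + 1) * ρ (pc c n t (k + 1)) - sq c (k + 2) * ρ (pc c n t k) = 1 := by
        rw [vρ, vρ, e1]
        linear_combination c1
      refine kill (pc c n t (k + 1)) (h.mem _) (-pc c n t k) (h.tri.neg _ (h.mem _)) hu
        (by rw [map_neg]; linarith) (hne _ s2) (hne' _ s1) ?_ ?_ ?_
      · rw [abs_le]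
        exact ⟨l2, hρ⟩
      · rw [map_neg, abs_neg, abs_le]
        refine ⟨l1, ?_⟩
        have h3 : sq c (k + 2) * ρ (pc c n t k) ≤ sq c (k + 2) * 1 := by
          have := mul_le_mul_of_nonneg_left hρ s1.le
          have e2 : k + 1 + 1 = k + 2 := rfl
          rw [e2] at hst
          linarith
        exact le_of_mul_le_mul_left h3 s2
      · refine ⟨sq c (k + 1), sq c (k + 2), s1, s2, ?_⟩
        unfold pc
        rw [e1]
        have h5 : sq c (k + 1) • (sq c (k + 2) • n + sq c (k + 1) • t) +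
            sq c (k + 2) • -(sq c (k + 1) • n + sq c k • t) =
            (sq c (k + 1) ^ 2 - sq c k * sq c (k + 2)) • t := by module
        rw [h5, c1, one_smul]
    · cases k with
      | zero =>
        rw [vφ] at v1
        simp only [sq_zero, zero_add, sq_one] at v1
        linarith
      | succ k =>
        have e2 : k + 1 + 1 = k + 2 := rfl
        have e3 : k + 1 + 2 = k + 3 := rfl
        have e4 : k + 2 + 1 = k + 3 := rfl
        rw [e2] at hu hρ l2 s1
        rw [e3] at s2
        have s0' : 0 < sq c (k + 1) := hs k (by omega)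
        have s00 : 0 ≤ sq c k := by
          cases k with
          | zero => simp
          | succ k => exact (hs k (by omega)).le
        have hc0 : 0 < c := by
          have h3 := sq_succ c (k + 1)
          rw [e2, e3] at h3
          by_contra h4
          rw [not_lt] at h4
          have h5 : 2 * c * sq c (k + 2) ≤ 0 :=
            mul_nonpos_of_nonpos_of_nonneg (by linarith) s1.le
          linarith
        have g1 : 1 ≤ sq c (k + 2) := sq_ge_of_pos (k := k + 1) s0'.le s1 s2.le
        have hv' : φ (pc c n t k) = -φ (pc c n t (k + 2)) := by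
          have h3 : φ (pc c n t (k + 2)) = 2 * c * φ (pc c n t (k + 1)) - φ (pc c n t k) := by
            rw [vφ, vφ, vφ, e4, e2, sq_succ c (k + 1), sq_succ c k]
            ring
          rw [h3, v1]
          ring
        have l1 : -1 ≤ ρ (pc c n t k) := by rw [vρ]; exact h.low fun i hi => hs i (by omega)
        -- `2 c t = s_{k+1} u_{k+2} - s_{k+3} u_k`
        have c1 : sq c (k + 1) * sq c (k + 2) - sq c k * sq c (k + 3) = 2 * c := by
          have := sq_docagne c k 1
          rw [sq_two] at this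
          have e5 : k + 1 + 1 = k + 2 := rfl
          have e6 : k + 2 + 1 = k + 3 := rfl
          rw [e5, e6] at this
          exact this
        have hval : sq c (k + 1) * ρ (pc c n t (k + 2)) - sq c (k + 3) * ρ (pc c n t k) =
            2 * c := by
          rw [vρ, vρ, e4]
          linear_combination c1
        have hst := sq_le_succ2 (b := c) (n := k + 1) hc0.le g1
        rw [e3] at hst
        refine kill (pc c n t (k + 2)) (h.mem _) (-pc c n t k) (h.tri.neg _ (h.mem _)) hu
          (by rw [map_neg, hv']; linarith) (hne _ s2) (hne' _ s0') ?_ ?_ ?_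
        · rw [abs_le]
          exact ⟨l2, hρ⟩
        · rw [map_neg, abs_neg, abs_le]
          refine ⟨l1, ?_⟩
          have h3 : sq c (k + 3) * ρ (pc c n t k) ≤ sq c (k + 3) * 1 := by
            have := mul_le_mul_of_nonneg_left hρ s0'.le
            linarith
          exact le_of_mul_le_mul_left h3 s2
        · refine ⟨sq c (k + 1) / (2 * c), sq c (k + 3) / (2 * c), by positivity, by positivity, ?_⟩
          unfold pc
          rw [e4]
          have h5 : (sq c (k + 1) / (2 * c)) • (sq c (k + 3) • n + sq c (k + 2) • t) +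
              (sq c (k + 3) / (2 * c)) • -(sq c (k + 1) • n + sq c k • t) =
              ((sq c (k + 1) * sq c (k + 2) - sq c k * sq c (k + 3)) / (2 * c)) • t := by
            match_scalars <;> field_simp <;> ring
          rw [h5, c1, div_self (by positivity), one_smul]

private theorem k1 (ft : φ t = 1) (sp : ∀ u ∈ Ψ, ∃ α β : ℝ, u = α • x + β • x' + φ u • t)
    (hk : ¬ KillS Ψ ρ x x' t) (hc : 0 < c) (hf : φ n < 0) : φ n < ρ n := by
  classical
  by_contra hcon
  rw [not_lt] at hcon
  have hle : ∀ k, 0 ≤ sq c (k + 1) → sq c (k + 1) * ρ n + sq c k ≤ sq c (k + 1) * φ n + sq c k := by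
    intro k hk
    have := mul_le_mul_of_nonneg_left hcon hk
    linarith
  by_cases hex : ∃ k, (∀ i ≤ k, 0 < sq c (i + 1)) ∧ 0 < sq c (k + 1) * φ n + sq c k
  · -- the first one
    have h1 := Nat.find_spec hex
    have h2 := fun k hk => Nat.find_min hex (m := k) hk
    set k := Nat.find hex with hkdef
    obtain ⟨h3, h4⟩ := h1
    have h5 : ∀ i < k, sq c (i + 1) * φ n + sq c i ≤ 0 := by
      intro i hi
      by_contra h6
      exact h2 i hi ⟨fun j hj => h3 j (by omega), not_le.1 h6⟩
    have h6 := h.nk ft sp hk hf k h3 h5 h4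
    cases hk' : k with
    | zero =>
      rw [hk'] at h4
      simp only [sq_zero, zero_add, sq_one] at h4
      linarith
    | succ m =>
      rw [hk'] at h3 h5 h6
      have e1 : m + 1 + 1 = m + 2 := rfl
      rw [e1] at h6
      have h7 := h5 m (by omega)
      have h8 := hle m (h3 m (by omega)).le
      cases m with
      | zero =>
        rw [sq_succ] at h6
        simp only [sq_zero, zero_add, sq_one] at h6 h7
        have : 2 * c * ρ n ≤ 0 := mul_nonpos_of_nonneg_of_nonpos (by linarith) (by linarith)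
        linarith
      | succ j =>
        have e2 : j + 1 + 2 = j + 3 := rfl
        have e3 : j + 1 + 1 = j + 2 := rfl
        rw [e2, e3] at h6
        rw [e3] at h7 h8
        have h9 := h.low (k := j) fun i hi => h3 i (by omega)
        have h10 : sq c (j + 3) * ρ n + sq c (j + 2) =
            2 * c * (sq c (j + 2) * ρ n + sq c (j + 1)) - (sq c (j + 1) * ρ n + sq c j) := by
          have e5 : j + 3 = j + 1 + 2 := rfl
          rw [e5, sq_succ c (j + 1)]
          have e6 : j + 1 + 1 = j + 2 := rfl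
          rw [e6, sq_succ c j]
          ring
        rw [h10] at h6
        have h11 : 2 * c * (sq c (j + 2) * ρ n + sq c (j + 1)) ≤ 0 :=
          mul_nonpos_of_nonneg_of_nonpos (by linarith) (by linarith)
        linarith
  · push Not at hex
    by_cases hall : ∀ i, 0 < sq c (i + 1)
    · -- infinite order
      have hc1 : 1 ≤ c := by
        apply one_le_of_sq
        intro k
        refine sq_ge_of_pos (c := c) ?_ (hall k) (hall (k + 1)).le
        cases k with
        | zero => simp
        | succ k => exact (hall k).le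
      obtain ⟨k, h1⟩ := h.late hc1 0
      rw [pc_val, h.rt, mul_one] at h1
      have h2 := hex (0 + k) fun i _ => hall i
      have h3 := hle (0 + k) (hall _).le
      linarith
    · push Not at hall
      have h1 := Nat.find_spec hall
      have h2 := fun k hk => Nat.find_min hall (m := k) hk
      set k := Nat.find hall with hkdef
      cases hk' : k with
      | zero =>
        rw [hk'] at h1
        simp only [zero_add, sq_one] at h1
        linarith
      | succ m =>
        rw [hk'] at h1 h2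
        have e1 : m + 1 + 1 = m + 2 := rfl
        rw [e1, sq_succ] at h1
        have h3 : ∀ i ≤ m, 0 < sq c (i + 1) := fun i hi => not_le.1 (h2 i (by omega))
        have h4 := hex m h3
        have h5 := hle m (h3 m le_rfl).le
        have h6 := mul_le_mul_of_nonneg_left h.foot (h3 m le_rfl).le
        have h7 := mul_pos hc (h3 m le_rfl)
        linarith

end PN

/-- **[STR]** -/
theorem str_of (hT : Tri Ψ B t d1 d2) (hA : Adm Ψ t d1 d2 ρ) (rt : ρ t = 1) (ft : φ t = 1)
    (sp : ∀ u ∈ Ψ, ∃ α β : ℝ, u = α • x + β • x' + φ u • t) (f1 : B t d1 ≤ ρ d1)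
    (f2 : B t d2 ≤ ρ d2) (hk : ¬ KillS Ψ ρ x x' t) :
    ∀ n ∈ Ψ, n ∈ C01 t d1 d2 → n ≠ t → Str (-B t n) (φ n) (ρ n) := by
  intro n hn hp hne
  have hfoot : B t n ≤ ρ n := by
    obtain ⟨g, x1, x2, e, h1, h2, h3⟩ := hp
    have k1 := mul_nonneg (e0Z1 h2) (sub_nonneg.2 f1)
    have k2 := mul_nonneg (e0Z1 h3) (sub_nonneg.2 f2)
    have htt := hT.one t hT.ha
    rw [e]
    simp only [map_add, map_smul, smul_eq_mul, htt, rt]
    linarith
  have h : PN Ψ B ρ t d1 d2 n (-B t n) :=
    ⟨hT, hA, rt, hn, hp, hne, by rw [neg_neg], by rw [neg_neg]; exact hfoot⟩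
  exact ⟨fun k hs => h.low hs, fun hf k h1 h2 h3 => h.nk ft sp hk hf k h1 h2 h3,
    h.foot, h.ult, h.k1 ft sp hk⟩

end DY
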