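import Pool.Agent.Helper7.DY.Case3

/-!
# Case II: the statements of the blocks and their assembly (MP_d13a5e_al)

`b1 = -B t d1`, `b2 = -B t d2`, `b0 = -B d1 d2`.  `x` is the steeper one of the two roots (`x_R`), `x'` the flatter
one (`x_L`).  An `O`-root is a root `be1 d1 + be2 d2`.
-/

set_option autoImplicit false

namespace DY

open Set

variable {E : Type*} [AddCommGroup E] [Module ℝ E]

/-- an `O`-root `be1 d1 + be2 d2` -/
structure ORt (Ψ : Set E) (B : E →ₗ[ℝ] E →ₗ[ℝ] ℝ) (d1 d2 : E) (be1 be2 : ℝ) : Prop where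
  mem : be1 • d1 + be2 • d2 ∈ Ψ
  z1 : Z1 be1
  z2 : Z1 be2
  nrm : be1 ^ 2 + be2 ^ 2 + 2 * B d1 d2 * be1 * be2 = 1

/-- two adjacent `O`-roots `a = al1 d1 + al2 d2`, `h = be1 d1 + be2 d2`, `φ a ≥ 0 > φ h` -/
structure OFA (Ψ : Set E) (B : E →ₗ[ℝ] E →ₗ[ℝ] ℝ) (φ : E →ₗ[ℝ] ℝ) (d1 d2 : E)
    (al1 al2 be1 be2 : ℝ) : Prop where
  ra : ORt Ψ B d1 d2 al1 al2
  rh : ORt Ψ B d1 d2 be1 be2
  fa : 0 ≤ al1 * φ d1 + al2 * φ d2
  fh : be1 * φ d1 + be2 * φ d2 < 0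
  det : al1 * be2 - al2 * be1 = 1
  adj : al1 * be1 + al2 * be2 + B d1 d2 * (al1 * be2 + al2 * be1) = -B d1 d2
  /-- an `O`-root with `φ = 0` is `a` -/
  uniq : ∀ y1 y2 : ℝ, ORt Ψ B d1 d2 y1 y2 → y1 * φ d1 + y2 * φ d2 = 0 → y1 = al1 ∧ y2 = al2

/-- the data of case II: `x` is the steeper root; `ρ d1 < φ d1` (after E0) -/
structure Xs (Ψ : Set E) (B : E →ₗ[ℝ] E →ₗ[ℝ] ℝ) (ρ φ : E →ₗ[ℝ] ℝ) (t d1 d2 x x' : E)
    (g x1 x2 g' x1' x2' : ℝ) : Prop where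
  L : Loc Ψ B ρ φ t d1 d2 x x'
  h1 : 0 ≤ φ d1
  h2 : φ d2 < 0
  hG : ρ d1 < φ d1
  e : x = g • t + x1 • d1 + x2 • d2
  e' : x' = g' • t + x1' • d1 + x2' • d2
  c : Crd (-B t d1) (-B t d2) (-B d1 d2) (-φ d1) (-φ d2) g x1 x2
  c' : Crd (-B t d1) (-B t d2) (-B d1 d2) (-φ d1) (-φ d2) g' x1' x2'
  rx : ρ x = g + x1 * ρ d1 + x2 * ρ d2
  rx' : ρ x' = g' + x1' * ρ d1 + x2' * ρ d2
  st : x1 * x2' < x2 * x1'
  p1 : 1 ≤ x1
  p2 : 1 ≤ x2
  p1' : 1 ≤ x1'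
  p2' : 0 ≤ x2'

/-- **[E0]** -/
def E0Stat (Ψ : Set E) (B : E →ₗ[ℝ] E →ₗ[ℝ] ℝ) : Prop :=
  ∀ (ρ φ : E →ₗ[ℝ] ℝ) (t d1 d2 x x' : E), Loc Ψ B ρ φ t d1 d2 x x' → 0 ≤ φ d1 → φ d2 < 0 →
    φ d1 ≤ ρ d1 → False

/-- **[OF]** -/
def OFStat (Ψ : Set E) (B : E →ₗ[ℝ] E →ₗ[ℝ] ℝ) : Prop :=
  ∀ (ρ φ : E →ₗ[ℝ] ℝ) (t d1 d2 x x' : E) (g x1 x2 g' x1' x2' : ℝ),
    Xs Ψ B ρ φ t d1 d2 x x' g x1 x2 g' x1' x2' →
    (∃ al1 al2 be1 be2 : ℝ, OFA Ψ B φ d1 d2 al1 al2 be1 be2) ∨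
    (1 ≤ -B d1 d2 ∧ g' ≠ 0 ∧ ∃ be1 be2 : ℝ, ORt Ψ B d1 d2 be1 be2 ∧ 1 ≤ be1 ∧
      be1 * φ d1 + be2 * φ d2 < 0 ∧ x1 * be2 ≤ x2 * be1)

/-- **[NG]** `x_R` in the cone of `h` and `d2`, `x_L` is not an `O`-root -/
def NGStat (Ψ : Set E) (B : E →ₗ[ℝ] E →ₗ[ℝ] ℝ) : Prop :=
  ∀ (ρ φ : E →ₗ[ℝ] ℝ) (t d1 d2 x x' : E) (g x1 x2 g' x1' x2' be1 be2 : ℝ),
    Xs Ψ B ρ φ t d1 d2 x x' g x1 x2 g' x1' x2' →
    ORt Ψ B d1 d2 be1 be2 → 1 ≤ be1 → be1 * φ d1 + be2 * φ d2 < 0 →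
    ((∃ al1 al2 : ℝ, OFA Ψ B φ d1 d2 al1 al2 be1 be2) ∨ 1 ≤ -B d1 d2) →
    x1 * be2 ≤ x2 * be1 → 1 ≤ g' → False

/-- **[NG0]** `x_R` in the cone of `h` and `d2`, `x_L = a` is an `O`-root -/
def NG0Stat (Ψ : Set E) (B : E →ₗ[ℝ] E →ₗ[ℝ] ℝ) : Prop :=
  ∀ (ρ φ : E →ₗ[ℝ] ℝ) (t d1 d2 x x' : E) (g x1 x2 al1 al2 be1 be2 : ℝ),
    Xs Ψ B ρ φ t d1 d2 x x' g x1 x2 0 al1 al2 →
    OFA Ψ B φ d1 d2 al1 al2 be1 be2 → 1 ≤ be1 → x1 * be2 ≤ x2 * be1 → False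

/-- **[GAP]** `x_R` in the open cone of `a` and `h` (then `x_L` is in the cone of `a` and `h`, too; it may be
equal to `a`).  `P` is an additional condition. -/
def GAPStat (Ψ : Set E) (B : E →ₗ[ℝ] E →ₗ[ℝ] ℝ)
    (P : E → E → E → ℝ → ℝ → ℝ → ℝ → Prop) : Prop :=
  ∀ (ρ φ : E →ₗ[ℝ] ℝ) (t d1 d2 x x' : E) (g x1 x2 g' x1' x2' al1 al2 be1 be2 : ℝ),
    Xs Ψ B ρ φ t d1 d2 x x' g x1 x2 g' x1' x2' →
    OFA Ψ B φ d1 d2 al1 al2 be1 be2 → P t d1 d2 al1 al2 be1 be2 →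
    0 < x1 * be2 - x2 * be1 → 0 < x1' * be2 - x2' * be1 →
    0 < al1 * x2 - al2 * x1 → 0 ≤ al1 * x2' - al2 * x1' → False

/-- [GAP1] `m_O ≥ 3` and `-B(t,a) > 1` -/
def GAP1 (Ψ : Set E) (B : E →ₗ[ℝ] E →ₗ[ℝ] ℝ) : Prop :=
  GAPStat Ψ B fun t d1 d2 al1 al2 _ _ =>
    1 / 2 ≤ -B d1 d2 ∧ 1 < al1 * -B t d1 + al2 * -B t d2

/-- [GAP2] `m_O = 2` -/
def GAP2 (Ψ : Set E) (B : E →ₗ[ℝ] E →ₗ[ℝ] ℝ) : Prop :=
  GAPStat Ψ B fun _ d1 d2 _ _ _ _ => B d1 d2 = 0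

/-- [GAP4] `m_O ≥ 3` and `-B(t,a) ≤ 1` -/
def GAP4 (Ψ : Set E) (B : E →ₗ[ℝ] E →ₗ[ℝ] ℝ) : Prop :=
  GAPStat Ψ B fun t d1 d2 al1 al2 _ _ =>
    1 / 2 ≤ -B d1 d2 ∧ al1 * -B t d1 + al2 * -B t d2 ≤ 1

section

variable {Ψ : Set E} {B : E →ₗ[ℝ] E →ₗ[ℝ] ℝ} {ρ φ : E →ₗ[ℝ] ℝ} {t d1 d2 x x' : E}

private theorem z1n {α : ℝ} (h : Z1 α) : 0 ≤ α := by
  rcases h with h | h <;> linarith

/-- a root of the plane of `t, d2` which is canonical with `t` is `d2` -/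
theorem Loc.x1_ne (L : Loc Ψ B ρ φ t d1 d2 x x') {v : E} (hc : Canon Ψ v t) (hv : φ v = 0)
    (h2 : φ d2 < 0) {g x1 x2 : ℝ} (e : v = g • t + x1 • d1 + x2 • d2) (hg : 0 ≤ g) (hx2 : 0 ≤ x2) :
    x1 ≠ 0 := by
  rintro rfl
  rw [e, L.val_φ, zero_mul, add_zero] at hv
  rcases hx2.lt_or_eq with h | h
  · have h3 : d2 = (1 / x2) • v + (-(g / x2)) • t := by
      rw [e]
      match_scalars <;> field_simp <;> ring
    have h4 : 0 < 1 / x2 := by positivity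
    have h5 : 0 ≤ g / x2 := by positivity
    rcases hc d2 L.tri.hc _ _ h3 with (⟨h6, h7⟩ | ⟨h6, h7⟩ | ⟨h6, h7⟩) | (⟨h6, h7⟩ | ⟨h6, h7⟩ | ⟨h6, h7⟩)
    · linarith
    · have h8 : x2 = 1 := by
        field_simp at h6
        linarith
      have h9 : g = 0 := by
        rw [h8] at h7
        linarith
      rw [h8, h9] at hv
      linarith
    · linarith
    · linarith
    · linarith
    · linarith
  · rw [← h, zero_mul, add_zero] at hv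
    have h3 : (0 : ℝ) = 1 := by
      have h4 := hc t L.tri.ha (1 / 2) (1 - g / 2) (by rw [e, hv, ← h]; module)
      have h5 : v = 0 := by rw [e, hv, ← h]; module
      rcases h4 with (⟨h6, -⟩ | ⟨h6, -⟩ | ⟨h6, -⟩) | (⟨h6, -⟩ | ⟨h6, -⟩ | ⟨h6, -⟩) <;> norm_num at h6
    norm_num at h3

/-- **assembly of case II** -/
theorem caseII_of (hE0 : E0Stat Ψ B) (hOF : OFStat Ψ B) (hNG : NGStat Ψ B) (hNG0 : NG0Stat Ψ B)
    (hG1 : GAP1 Ψ B) (hG2 : GAP2 Ψ B) (hG4 : GAP4 Ψ B) (ρ φ : E →ₗ[ℝ] ℝ) (t d1 d2 x x' : E)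
    (L : Loc Ψ B ρ φ t d1 d2 x x') (h1 : 0 ≤ φ d1) (h2 : φ d2 < 0) : False := by
  -- reduction to `x` steeper
  suffices H : ∀ (x x' : E), Loc Ψ B ρ φ t d1 d2 x x' → ∀ g x1 x2 g' x1' x2' : ℝ,
      x = g • t + x1 • d1 + x2 • d2 → x' = g' • t + x1' • d1 + x2' • d2 →
      Crd (-B t d1) (-B t d2) (-B d1 d2) (-φ d1) (-φ d2) g x1 x2 →
      Crd (-B t d1) (-B t d2) (-B d1 d2) (-φ d1) (-φ d2) g' x1' x2' →
      ρ x = g + x1 * ρ d1 + x2 * ρ d2 → ρ x' = g' + x1' * ρ d1 + x2' * ρ d2 →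
      x1 * x2' < x2 * x1' → False by
    obtain ⟨g, x1, x2, g', x1', x2', e, e', c, c', r, r'⟩ := L.crd
    have hdet := L.det_ne e e'
    rcases lt_or_gt_of_ne hdet with h3 | h3
    · exact H x x' L g x1 x2 g' x1' x2' e e' c c' r r' (by linarith)
    · exact H x' x L.swapx g' x1' x2' g x1 x2 e' e c' c r' r (by linarith)
  intro x x' L g x1 x2 g' x1' x2' e e' c c' r r' hst
  have hG : ρ d1 < φ d1 := by
    by_contra h3
    exact hE0 _ _ _ _ _ _ _ L h1 h2 (not_lt.1 h3)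
  have n1 := L.x1_ne L.cxt L.fx h2 e (z1n c.zg) (z1n c.z2)
  have n1' := L.x1_ne L.cxt' L.fx' h2 e' (z1n c'.zg) (z1n c'.z2)
  have p1 : 1 ≤ x1 := by
    rcases c.z1 with h | h
    · exact absurd h n1
    · exact h
  have p1' : 1 ≤ x1' := by
    rcases c'.z1 with h | h
    · exact absurd h n1'
    · exact h
  have p2' : 0 ≤ x2' := z1n c'.z2
  have p2 : 1 ≤ x2 := by
    rcases c.z2 with h | h
    · exfalso
      rw [h, zero_mul] at hst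
      have := mul_nonneg (z1n c.z1) p2'
      linarith
    · exact h
  have X : Xs Ψ B ρ φ t d1 d2 x x' g x1 x2 g' x1' x2' :=
    ⟨L, h1, h2, hG, e, e', c, c', r, r', hst, p1, p2, p1', p2'⟩
  have fx := c.fz
  have fx' := c'.fz
  have hg0 := z1n c.zg
  have hg0' := z1n c'.zg
  rcases hOF _ _ _ _ _ _ _ _ _ _ _ _ _ X with ⟨al1, al2, be1, be2, O⟩ |
    ⟨hb, hg', be1, be2, rh, hbe, fh, hu⟩
  · have ha1 := z1n O.ra.z1
    have ha2 := z1n O.ra.z2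
    have hb1 := z1n O.rh.z1
    have hb2 := z1n O.rh.z2
    by_cases hu : x1 * be2 ≤ x2 * be1
    · -- nongap
      have hbe : 1 ≤ be1 := by
        rcases O.rh.z1 with h | h
        · exfalso
          rw [h, mul_zero] at hu
          have h3 : 0 < be2 := by
            rcases hb2.lt_or_eq with h4 | h4
            · exact h4
            · have := O.rh.nrm
              rw [h, ← h4] at this
              norm_num at this
          have := mul_pos (by linarith : 0 < x1) h3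
          linarith
        · exact h
      by_cases hg' : g' = 0
      · subst hg'
        have hx' : x1' • d1 + x2' • d2 ∈ Ψ := by
          have := L.xm'
          rw [e', zero_smul, zero_add] at this
          exact this
        have ho : ORt Ψ B d1 d2 x1' x2' := by
          refine ⟨hx', c'.z1, c'.z2, ?_⟩
          have := c'.nrm
          linarith
        obtain ⟨k1, k2⟩ := O.uniq x1' x2' ho (by linarith)
        subst k1 k2
        exact hNG0 _ _ _ _ _ _ _ _ _ _ _ _ _ _ X O hbe hu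
      · have hg1 : 1 ≤ g' := by
          rcases c'.zg with h | h
          · exact absurd h hg'
          · exact h
        exact hNG _ _ _ _ _ _ _ _ _ _ _ _ _ _ _ X O.rh hbe O.fh (Or.inl ⟨al1, al2, O⟩) hu hg1
    · -- gap
      rw [not_le] at hu
      have u0 : 0 < x1 * be2 - x2 * be1 := by linarith
      have u0' : 0 < x1' * be2 - x2' * be1 := by
        have h3 : 0 < x1 * (x1' * be2 - x2' * be1) := by
          have h4 := mul_pos (by linarith : 0 < x1') u0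
          have h5 := mul_nonneg hb1 (by linarith : 0 ≤ x2 * x1' - x1 * x2')
          have h6 : x1 * (x1' * be2 - x2' * be1) =
            x1' * (x1 * be2 - x2 * be1) + be1 * (x2 * x1' - x1 * x2') := by ring
          rw [h6]
          linarith
        exact (mul_pos_iff_of_pos_left (by linarith)).1 h3
      have v0' : 0 ≤ al1 * x2' - al2 * x1' := by
        by_contra h3
        rw [not_le] at h3
        -- `φ x'-bar = u' φ a + v' φ h`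
        have h4 : x1' * φ d1 + x2' * φ d2 =
            (x1' * be2 - x2' * be1) * (al1 * φ d1 + al2 * φ d2) +
              (al1 * x2' - al2 * x1') * (be1 * φ d1 + be2 * φ d2) := by
          linear_combination (-(x1' * φ d1 + x2' * φ d2)) * O.det
        have h5 := mul_nonneg u0'.le O.fa
        have h6 := mul_pos_of_neg_of_neg h3 O.fh
        linarith
      have v0 : 0 < al1 * x2 - al2 * x1 := by
        have h3 : 0 < x1' * (al1 * x2 - al2 * x1) := by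
          have h4 := mul_nonneg (by linarith : 0 ≤ x1) v0'
          have h6 : x1' * (al1 * x2 - al2 * x1) =
            x1 * (al1 * x2' - al2 * x1') + al1 * (x2 * x1' - x1 * x2') := by ring
          have h7 : 0 < al1 := by
            rcases ha1.lt_or_eq with h8 | h8
            · exact h8
            · exfalso
              have h9 := O.det
              rw [← h8, zero_mul, zero_sub] at h9
              have := mul_nonneg ha2 hb1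
              linarith
          rw [h6]
          have := mul_pos h7 (by linarith : 0 < x2 * x1' - x1 * x2')
          linarith
        exact (mul_pos_iff_of_pos_left (by linarith)).1 h3
      rcases L.lbl.z0 with h3 | h3
      · exact hG2 _ _ _ _ _ _ _ _ _ _ _ _ _ _ _ _ _ X O (by linarith) u0 u0' v0 v0'
      · rcases lt_or_ge 1 (al1 * -B t d1 + al2 * -B t d2) with h4 | h4
        · exact hG1 _ _ _ _ _ _ _ _ _ _ _ _ _ _ _ _ _ X O ⟨by linarith, h4⟩ u0 u0' v0 v0'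
        · exact hG4 _ _ _ _ _ _ _ _ _ _ _ _ _ _ _ _ _ X O ⟨by linarith, h4⟩ u0 u0' v0 v0'
  · have hg1 : 1 ≤ g' := by
      rcases c'.zg with h | h
      · exact absurd h hg'
      · exact h
    exact hNG _ _ _ _ _ _ _ _ _ _ _ _ _ _ _ X rh hbe fh (Or.inr hb) hu hg1

end

end DY
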