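import Pool.Agent.Helper7.DY.Loc

/-!
# The Chebyshev sequence of a pencil (`DY.sq` of `Helper7/DY/Loc.lean`) (MP_d13a5e_al)
-/

set_option autoImplicit false

namespace DY

variable {b : ℝ}

@[simp] theorem sq_zero : sq b 0 = 0 := rfl

@[simp] theorem sq_one : sq b 1 = 1 := rfl

theorem sq_two : sq b 2 = 2 * b := by
  show 2 * b * 1 - 0 = 2 * b
  ring

theorem sq_succ (b : ℝ) (n : ℕ) : sq b (n + 2) = 2 * b * sq b (n + 1) - sq b n := rfl

/-- the norm equation -/
theorem sq_norm (b : ℝ) (n : ℕ) :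
    sq b n ^ 2 + sq b (n + 1) ^ 2 - 2 * b * sq b n * sq b (n + 1) = 1 := by
  induction n with
  | zero => simp
  | succ n ih =>
    rw [sq_succ]
    linear_combination ih

/-- Cassini -/
theorem sq_cassini (b : ℝ) (n : ℕ) : sq b (n + 1) ^ 2 - sq b n * sq b (n + 2) = 1 := by
  rw [sq_succ]
  linear_combination sq_norm b n

/-- the identity of d'Ocagne -/
theorem sq_docagne (b : ℝ) (n m : ℕ) :
    sq b (n + 1) * sq b (n + 1 + m) - sq b n * sq b (n + 2 + m) = sq b (m + 1) := by
  induction n generalizing m with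
  | zero =>
    have e1 : 0 + 1 + m = m + 1 := by omega
    rw [e1]
    simp
  | succ n ih =>
    have h1 := ih m
    have e1 : n + 1 + 1 + m = n + m + 2 := by omega
    have e2 : n + 1 + 2 + m = n + m + 1 + 2 := by omega
    have e3 : n + 1 + m = n + m + 1 := by omega
    have e4 : n + 2 + m = n + m + 2 := by omega
    have e5 : n + 1 + 1 = n + 2 := rfl
    rw [e3, e4] at h1
    rw [e1, e2, e5]
    have h2 := sq_succ b n
    have h3 := sq_succ b (n + m + 1)
    have h4 := sq_succ b (n + m)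
    rw [h2, h3]
    have e6 : n + m + 1 + 1 = n + m + 2 := rfl
    rw [e6]
    rw [h4] at h1 ⊢
    linear_combination h1

/-- differences of second neighbours -/
theorem sq_diff (b : ℝ) (n : ℕ) :
    (sq b (n + 2) - sq b n) ^ 2 = 4 + 4 * (b ^ 2 - 1) * sq b (n + 1) ^ 2 := by
  have h1 := sq_cassini b n
  have h2 := sq_succ b n
  have h3 : (sq b (n + 2) - sq b n) ^ 2 =
    (sq b (n + 2) + sq b n) ^ 2 - 4 * (sq b n * sq b (n + 2)) := by ring
  have h4 : sq b (n + 2) + sq b n = 2 * b * sq b (n + 1) := by linarith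
  rw [h3, h4]
  linear_combination 4 * h1

theorem sq_diff_le (hb : b ^ 2 ≤ 1) (n : ℕ) : |sq b (n + 2) - sq b n| ≤ 2 := by
  have h1 := sq_diff b n
  have h2 : (sq b (n + 2) - sq b n) ^ 2 ≤ 2 ^ 2 := by
    rw [h1]
    nlinarith [sq_nonneg (sq b (n + 1))]
  exact abs_le_of_sq_le_sq h2 (by norm_num)

/-- differences of neighbours -/
theorem sq_step_le (hb : b ≤ 1) {n : ℕ} (h1 : 0 ≤ sq b n) (h2 : 0 ≤ sq b (n + 1)) :
    |sq b (n + 1) - sq b n| ≤ 1 := by
  have h3 := sq_norm b n
  have h4 : (sq b (n + 1) - sq b n) ^ 2 ≤ 1 ^ 2 := by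
    nlinarith [mul_nonneg (mul_nonneg h1 h2) (sub_nonneg.2 hb)]
  exact abs_le_of_sq_le_sq h4 (by norm_num)

/-- for `1 ≤ b` the sequence increases by at least one -/
theorem sq_incr (hb : 1 ≤ b) (n : ℕ) : 0 ≤ sq b n ∧ sq b n + 1 ≤ sq b (n + 1) := by
  induction n with
  | zero => simp
  | succ n ih =>
    refine ⟨by linarith [ih.1, ih.2], ?_⟩
    rw [sq_succ]
    have h2 : 0 ≤ sq b (n + 1) := by linarith [ih.1, ih.2]
    nlinarith [mul_nonneg (sub_nonneg.mpr hb) h2, ih.2]

theorem sq_mono (hb : 1 ≤ b) : Monotone (sq b) :=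
  monotone_nat_of_le_succ fun n => by linarith [(sq_incr hb n).2]

theorem sq_ge_one (hb : 1 ≤ b) (n : ℕ) : 1 ≤ sq b (n + 1) := by
  linarith [(sq_incr hb n).1, (sq_incr hb n).2]

/-- if the sequence stays positive then `1 ≤ b` -/
theorem one_le_of_sq (h : ∀ n, 1 ≤ sq b (n + 1)) : 1 ≤ b := by
  by_contra hb
  rw [not_le] at hb
  have h1 : ∀ n : ℕ, sq b (n + 1) - sq b n ≤ 1 - 2 * (1 - b) * n := by
    intro n
    induction n with
    | zero => simp
    | succ n ih =>
      rw [sq_succ]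
      have h2 := h n
      have h3 : 2 * (1 - b) * 1 ≤ 2 * (1 - b) * sq b (n + 1) :=
        mul_le_mul_of_nonneg_left h2 (by linarith)
      push_cast
      linarith
  -- the differences become negative, and then the sequence decreases linearly
  obtain ⟨N, hN⟩ := exists_nat_gt (2 / (2 * (1 - b)))
  have hb' : 0 < 2 * (1 - b) := by linarith
  rw [div_lt_iff₀ hb'] at hN
  have h4 : ∀ k : ℕ, sq b (N + k) ≤ sq b N - k := by
    intro k
    induction k with
    | zero => simp
    | succ k ih =>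
      have h5 := h1 (N + k)
      have h6 : (N : ℝ) * (2 * (1 - b)) ≤ 2 * (1 - b) * ((N + k : ℕ) : ℝ) := by
        push_cast
        nlinarith [mul_nonneg (Nat.cast_nonneg (α := ℝ) k) hb'.le]
      have e1 : N + (k + 1) = N + k + 1 := by omega
      rw [e1]
      push_cast
      linarith
  obtain ⟨M, hM⟩ := exists_nat_gt (sq b N)
  have h7 := h4 (M + 1)
  have h8 := h (N + M)
  have e2 : N + (M + 1) = N + M + 1 := by omega
  rw [e2] at h7
  push_cast at h7
  linarith

/-- `κ` increases -/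
theorem kappa_lt {n : ℕ} (h1 : 0 < sq b (n + 1)) (h2 : 0 < sq b (n + 2)) :
    sq b n / sq b (n + 1) < sq b (n + 1) / sq b (n + 2) := by
  rw [div_lt_div_iff₀ h1 h2]
  have := sq_cassini b n
  nlinarith

theorem kappa_sub {n : ℕ} (h1 : 0 < sq b (n + 1)) (h2 : 0 < sq b (n + 2)) :
    sq b n / sq b (n + 1) - (sq b (n + 1) - 1) / sq b (n + 2) =
      (sq b (n + 1) - 1) / (sq b (n + 1) * sq b (n + 2)) := by
  have := sq_cassini b n
  field_simp
  linear_combination (-1 : ℝ) * this

end DY
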