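import Pool.Agent.Helper9.DY.NG
import Pool.Agent.Helper54.DY.Det1

/-!
# Assembly of the nongap case, second form (MP_d13a5e_al)

The alternative `1 ≤ -B d1 d2` of `NGStat` is only needed when there is no adjacent pair of `O`-roots with
`φ a ≥ 0 > φ h`: if there is such a pair `a`, `h'` then `x` is in the cone of `h'` and `d2` too.
-/

set_option autoImplicit false

namespace DY

open Set

variable {E : Type*} [AddCommGroup E] [Module ℝ E]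

/-- the nongap case, `h` from an adjacent pair `a`, `h`; condition `P` on `-B(t,h)`, `φ h`, `-B(t,d2)`, `φ d2` -/
def NGO (Ψ : Set E) (B : E →ₗ[ℝ] E →ₗ[ℝ] ℝ) (P : ℝ → ℝ → ℝ → ℝ → Prop) : Prop :=
  ∀ (ρ φ : E →ₗ[ℝ] ℝ) (t d1 d2 x x' : E) (g x1 x2 g' x1' x2' al1 al2 be1 be2 : ℝ),
    Xs Ψ B ρ φ t d1 d2 x x' g x1 x2 g' x1' x2' →
    OFA Ψ B φ d1 d2 al1 al2 be1 be2 → 1 ≤ be1 → x1 * be2 ≤ x2 * be1 → 1 ≤ g' →
    P (be1 * -B t d1 + be2 * -B t d2) (be1 * φ d1 + be2 * φ d2) (-B t d2) (φ d2) → False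

/-- the nongap case in the limit gap (no adjacent pair); condition `P` on `-B(t,d2)`, `φ d2` -/
def NGN (Ψ : Set E) (B : E →ₗ[ℝ] E →ₗ[ℝ] ℝ) (P : ℝ → ℝ → Prop) : Prop :=
  ∀ (ρ φ : E →ₗ[ℝ] ℝ) (t d1 d2 x x' : E) (g x1 x2 g' x1' x2' be1 be2 : ℝ),
    Xs Ψ B ρ φ t d1 d2 x x' g x1 x2 g' x1' x2' →
    (¬∃ al1 al2 be1 be2 : ℝ, OFA Ψ B φ d1 d2 al1 al2 be1 be2) → 1 ≤ -B d1 d2 →
    ORt Ψ B d1 d2 be1 be2 → 1 ≤ be1 → be1 * φ d1 + be2 * φ d2 < 0 →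
    x1 * be2 ≤ x2 * be1 → 1 ≤ g' → P (-B t d2) (φ d2) → False

/-- `F` beyond `V_2`, with an adjacent pair -/
def NGbO (Ψ : Set E) (B : E →ₗ[ℝ] E →ₗ[ℝ] ℝ) : Prop :=
  NGO Ψ B fun _ _ c2 f2 => Beyond c2 f2

/-- `F` beyond `V_2`, in the limit gap -/
def NGbN (Ψ : Set E) (B : E →ₗ[ℝ] E →ₗ[ℝ] ℝ) : Prop :=
  NGN Ψ B Beyond

/-- `F` good at `V_2`, with an adjacent pair, index `1` at `h` -/
def NG1O (Ψ : Set E) (B : E →ₗ[ℝ] E →ₗ[ℝ] ℝ) : Prop :=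
  NGO Ψ B fun ch fh c2 f2 => (∃ k2, Good c2 f2 k2) ∧ Good ch fh 1

/-- `F` good at `V_2`, with an adjacent pair, index `k ≥ 2` at `h` -/
def NGiO (Ψ : Set E) (B : E →ₗ[ℝ] E →ₗ[ℝ] ℝ) : Prop :=
  NGO Ψ B fun ch fh c2 f2 => (∃ k2, Good c2 f2 k2) ∧ ∃ k, 2 ≤ k ∧ Good ch fh k

/-- `F` good at `V_2`, with an adjacent pair, beyond `<t,h>` -/
def NGinfO (Ψ : Set E) (B : E →ₗ[ℝ] E →ₗ[ℝ] ℝ) : Prop :=
  NGO Ψ B fun ch fh c2 f2 => (∃ k2, Good c2 f2 k2) ∧ Beyond ch fh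

/-- `F` good at `V_2`, in the limit gap -/
def NGmN (Ψ : Set E) (B : E →ₗ[ℝ] E →ₗ[ℝ] ℝ) : Prop :=
  NGN Ψ B fun c2 f2 => ∃ k2, Good c2 f2 k2

section

variable {Ψ : Set E} {B : E →ₗ[ℝ] E →ₗ[ℝ] ℝ} {φ : E →ₗ[ℝ] ℝ} {t d1 d2 : E}

/-- an `O`-root `h` with `φ h < 0` is at least as steep as the root `h'` of the adjacent pair -/
theorem OFA.steep (hT : Tri Ψ B t d1 d2) {al1 al2 be1' be2' be1 be2 : ℝ}
    (O : OFA Ψ B φ d1 d2 al1 al2 be1' be2') (rh : ORt Ψ B d1 d2 be1 be2)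
    (fh : be1 * φ d1 + be2 * φ d2 < 0) (hb : 1 ≤ -B d1 d2) : be1 * be2' ≤ be2 * be1' := by
  by_contra hcon
  rw [not_le] at hcon
  have hT' : Tri Ψ B d1 d2 t := hT.swapW'.swapW
  have z1 := rh.z1.nonneg
  have z2 := rh.z2.nonneg
  have hd := hT'.dih rh.mem z1 z2 O.rh.mem
  have hm0 : 0 < be1 * be2' - be2 * be1' := by linarith
  have hm : 1 ≤ be1 * be2' - be2 * be1' := by
    rcases hd with h | h
    · linarith
    · rwa [abs_of_pos hm0] at h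
  have e1 : be1 = (be1 * be2' - be2 * be1') * al1 + (al1 * be2 - al2 * be1) * be1' := by
    linear_combination (-be1) * O.det
  have e2 : be2 = (be1 * be2' - be2 * be1') * al2 + (al1 * be2 - al2 * be1) * be2' := by
    linear_combination (-be2) * O.det
  set m : ℝ := be1 * be2' - be2 * be1' with hmd
  set n : ℝ := al1 * be2 - al2 * be1 with hnd
  have hn : 0 < n := by
    have h1 : be1 * φ d1 + be2 * φ d2 =
        m * (al1 * φ d1 + al2 * φ d2) + n * (be1' * φ d1 + be2' * φ d2) := by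
      linear_combination φ d1 * e1 + φ d2 * e2
    have h2 := mul_nonneg hm0.le O.fa
    have h3 : n * (be1' * φ d1 + be2' * φ d2) < 0 := by linarith
    by_contra h4
    have h5 := mul_nonneg_of_nonpos_of_nonpos (not_lt.1 h4) O.fh.le
    linarith
  have hN : m ^ 2 + n ^ 2 + 2 * m * n * -B d1 d2 = 1 := by
    have h1 := rh.nrm
    have h2 : be1 ^ 2 + be2 ^ 2 + 2 * B d1 d2 * be1 * be2 =
        m ^ 2 * (al1 ^ 2 + al2 ^ 2 + 2 * B d1 d2 * al1 * al2) +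
        n ^ 2 * (be1' ^ 2 + be2' ^ 2 + 2 * B d1 d2 * be1' * be2') +
        2 * m * n * (al1 * be1' + al2 * be2' + B d1 d2 * (al1 * be2' + al2 * be1')) := by
      rw [e1, e2]
      ring
    rw [O.ra.nrm, O.rh.nrm, O.adj] at h2
    linarith
  have h1 := mul_nonneg (mul_pos hm0 hn).le (by linarith : 0 ≤ -B d1 d2 - 1)
  have h2 := mul_pos hm0 hn
  nlinarith

end

/-- **assembly of the nongap case** -/
theorem ng_of2 {Ψ : Set E} {B : E →ₗ[ℝ] E →ₗ[ℝ] ℝ} (hbO : NGbO Ψ B) (hbN : NGbN Ψ B) (h1 : NG1O Ψ B)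
    (hi : NGiO Ψ B) (hinf : NGinfO Ψ B) (hm : NGmN Ψ B) : NGStat Ψ B := by
  -- with an adjacent pair
  have HO : ∀ (ρ φ : E →ₗ[ℝ] ℝ) (t d1 d2 x x' : E) (g x1 x2 g' x1' x2' al1 al2 be1 be2 : ℝ),
      Xs Ψ B ρ φ t d1 d2 x x' g x1 x2 g' x1' x2' →
      OFA Ψ B φ d1 d2 al1 al2 be1 be2 → 1 ≤ be1 → x1 * be2 ≤ x2 * be1 → 1 ≤ g' → False := by
    intro ρ φ t d1 d2 x x' g x1 x2 g' x1' x2' al1 al2 be1 be2 X O hbe hu hg
    rcases good_or_beyond (-B t d2) (φ d2) with h2 | h2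
    · rcases good_or_beyond (be1 * -B t d1 + be2 * -B t d2) (be1 * φ d1 + be2 * φ d2) with ⟨k, hk⟩ | hh
      · have hk1 := hk.pos O.fh
        rcases hk1.eq_or_lt with h3 | h3
        · subst h3
          exact h1 _ _ _ _ _ _ _ _ _ _ _ _ _ _ _ _ _ X O hbe hu hg ⟨h2, hk⟩
        · exact hi _ _ _ _ _ _ _ _ _ _ _ _ _ _ _ _ _ X O hbe hu hg ⟨h2, k, h3, hk⟩
      · exact hinf _ _ _ _ _ _ _ _ _ _ _ _ _ _ _ _ _ X O hbe hu hg ⟨h2, hh⟩
    · exact hbO _ _ _ _ _ _ _ _ _ _ _ _ _ _ _ _ _ X O hbe hu hg h2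
  intro ρ φ t d1 d2 x x' g x1 x2 g' x1' x2' be1 be2 X rh hbe fh alt hu hg
  rcases alt with ⟨al1, al2, O⟩ | hb
  · exact HO _ _ _ _ _ _ _ _ _ _ _ _ _ _ _ _ _ X O hbe hu hg
  · by_cases hex : ∃ al1 al2 be1 be2 : ℝ, OFA Ψ B φ d1 d2 al1 al2 be1 be2
    · obtain ⟨al1, al2, be1', be2', O⟩ := hex
      have h3 := O.steep X.L.tri rh fh hb
      have hb2' := O.rh.z2.nonneg
      have hb1' : 1 ≤ be1' := by
        rcases O.rh.z1 with h | h
        · exfalso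
          rw [h, mul_zero] at h3
          have h4 : be2' = 0 := by
            rcases hb2'.eq_or_lt with h5 | h5
            · exact h5.symm
            · have := mul_pos (by linarith : 0 < be1) h5
              linarith
          have := O.rh.nrm
          rw [h, h4] at this
          norm_num at this
        · exact h
      have p1 := X.p1
      refine HO _ _ _ _ _ _ _ _ _ _ _ _ _ _ _ _ _ X O hb1' ?_ hg
      have e1 : 0 ≤ be1 * (x2 * be1' - x1 * be2') := by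
        have h4 := mul_nonneg (by linarith : 0 ≤ x1) (by linarith : 0 ≤ be2 * be1' - be1 * be2')
        have h5 := mul_nonneg (by linarith : 0 ≤ be1') (by linarith : 0 ≤ x2 * be1 - x1 * be2)
        have h6 : be1 * (x2 * be1' - x1 * be2') =
            x1 * (be2 * be1' - be1 * be2') + be1' * (x2 * be1 - x1 * be2) := by ring
        rw [h6]
        linarith
      have := nonneg_of_mul_nonneg_right e1 (by linarith)
      linarith
    · rcases good_or_beyond (-B t d2) (φ d2) with h2 | h2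
      · exact hm _ _ _ _ _ _ _ _ _ _ _ _ _ _ _ X hex hb rh hbe fh hu hg h2
      · exact hbN _ _ _ _ _ _ _ _ _ _ _ _ _ _ _ X hex hb rh hbe fh hu hg h2

/-- the old forms imply the new ones -/
theorem NGP.toO {Ψ : Set E} {B : E →ₗ[ℝ] E →ₗ[ℝ] ℝ} {P : ℝ → ℝ → ℝ → ℝ → Prop} (h : NGP Ψ B P) :
    NGO Ψ B P := by
  intro ρ φ t d1 d2 x x' g x1 x2 g' x1' x2' al1 al2 be1 be2 X O hbe hu hg hP
  exact h _ _ _ _ _ _ _ _ _ _ _ _ _ _ _ X O.rh hbe O.fh (Or.inl ⟨al1, al2, O⟩) hu hg hP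

end DY
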