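import Pool.Agent.Helper9.DY.GapV
import Pool.Agent.Helper18.DY.NGi
import Pool.Agent.Helper78.DY.U1
import Pool.Agent.Helper80.DY.E0H
import Pool.Agent.Helper9.DY.NG

/-!
# [GAP2] (b), labels at most one: determinant, gap, and the case `m1 = 4`, `j = 4` (MP_d13a5e_al)

`u = a0 t + b d2` a root of the plane of `t`, `d2`.  `Xs.hdu`: the determinant of `u, x, x'`.  `Xs.gap_vec`,
`Xs.gap_u`, `Xs.gap_m4`: the gap for `B x u > 1`.  `Xs.good_rho`: `ρ u > τ`.  `Xs.g2_m4`: `m1 = 4`, `j = 4`.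
-/

set_option autoImplicit false

namespace DY

open Set

variable {E : Type*} [AddCommGroup E] [Module ℝ E]
variable {Ψ : Set E} {B : E →ₗ[ℝ] E →ₗ[ℝ] ℝ} {ρ φ : E →ₗ[ℝ] ℝ} {t d1 d2 x x' : E}
variable {g x1 x2 g' x1' x2' : ℝ}

/-- the determinant of `u, x, x'` for a root `u` of the plane of `t`, `d2` with `φ u ≤ 0` -/
theorem Xs.hdu (X : Xs Ψ B ρ φ t d1 d2 x x' g x1 x2 g' x1' x2') {a0 b : ℝ} (hu : a0 • t + b • d2 ∈ Ψ)
    (hf : a0 + b * φ d2 ≤ 0) : 1 ≤ b * (g * x1' - g' * x1) - a0 * (x2 * x1' - x1 * x2') := by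
  have hD : 0 < x2 * x1' - x1 * x2' := by linarith only [X.st]
  have f1 : g + x1 * φ d1 + x2 * φ d2 = 0 := by
    have := X.c.fz
    linarith only [this]
  have f2 : g' + x1' * φ d1 + x2' * φ d2 = 0 := by
    have := X.c'.fz
    linarith only [this]
  have e1 : b * (g * x1' - g' * x1) - a0 * (x2 * x1' - x1 * x2') =
      (x2 * x1' - x1 * x2') * -(a0 + b * φ d2) := by
    linear_combination b * x1' * f1 - b * x1 * f2
  have hu' : a0 • t + (0 : ℝ) • d1 + b • d2 ∈ Ψ := by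
    have : a0 • t + (0 : ℝ) • d1 + b • d2 = a0 • t + b • d2 := by module
    rw [this]
    exact hu
  have hx : g • t + x1 • d1 + x2 • d2 ∈ Ψ := by
    rw [← X.e]
    exact X.L.xm
  have hx' : g' • t + x1' • d1 + x2' • d2 ∈ Ψ := by
    rw [← X.e']
    exact X.L.xm'
  have hne : a0 + b * φ d2 ≠ 0 := fun h0 =>
    Pool.Agent.Helper80.DY.no_flat X.L X.e X.e' X.p1 X.p1' hu' h0
  have hneg : a0 + b * φ d2 < 0 := lt_of_le_of_ne hf hne
  have hpos : 0 < b * (g * x1' - g' * x1) - a0 * (x2 * x1' - x1 * x2') := by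
    rw [e1]
    exact mul_pos hD (by linarith only [hneg])
  rcases Pool.Agent.Helper18.DY.det_tri X.L.tri hu' hx hx'
    (D := b * (g * x1' - g' * x1) - a0 * (x2 * x1' - x1 * x2')) (by ring) with h | h
  · rw [h] at hpos
    exact absurd hpos (lt_irrefl _)
  · rwa [abs_of_pos hpos] at h

/-- the vector of the gap for `u` and `x` -/
theorem Xs.gap_vec (X : Xs Ψ B ρ φ t d1 d2 x x' g x1 x2 g' x1' x2') {a0 b : ℝ} (hu : a0 • t + b • d2 ∈ Ψ)
    (ha : 0 ≤ a0) (hb : 0 ≤ b) (h1 : 1 < B x (a0 • t + b • d2)) :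
    GapG B t d1 d2 (-B x (a0 • t + b • d2)) := by
  have hT := X.L.tri
  obtain ⟨u, hud⟩ : ∃ u, u = a0 • t + b • d2 := ⟨_, rfl⟩
  rw [← hud] at hu h1 ⊢
  have hR := Pool.Agent.Helper62.DY.rt_of_tri hT
  have ou : B u u = 1 := hT.one u hu
  have hup : u ∈ C01 t d1 d2 := by
    have hu' : a0 • t + (0 : ℝ) • d1 + b • d2 ∈ Ψ := by
      have : a0 • t + (0 : ℝ) • d1 + b • d2 = u := by rw [hud]; module
      rw [this]
      exact hu
    rcases hR.z _ _ _ hu' with ⟨z0, z1, z2⟩ | ⟨z0, z1, z2⟩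
    · exact ⟨a0, 0, b, by rw [hud]; module, z0, z1, z2⟩
    · refine ⟨a0, 0, b, by rw [hud]; module, Or.inl ?_, Or.inl rfl, Or.inl ?_⟩
      · rcases z0 with z | z <;> linarith
      · rcases z2 with z | z <;> linarith
  have hv : rf B u x ∈ Ψ := hT.refl u hu x X.L.xm
  have hvp : rf B u x ∈ C01 t d1 d2 := by
    have e1 : rf B u x = (g - 2 * B u x * a0) • t + x1 • d1 + (x2 - 2 * B u x * b) • d2 := by
      unfold DY.rf
      obtain ⟨r, hr⟩ : ∃ r, r = B u x := ⟨_, rfl⟩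
      rw [← hr, X.e, hud]
      module
    rw [e1] at hv
    obtain ⟨z0, z1, z2⟩ := hR.z1 hv (by linarith only [X.p1])
    exact ⟨_, _, _, e1, z0, Or.inr z1, z2⟩
  have hB : B (rf B u x) u = -B x u := by
    unfold DY.rf
    simp only [map_sub, map_smul, LinearMap.sub_apply, LinearMap.smul_apply, smul_eq_mul, ou, hT.symm u x]
    ring
  have h2 := hT.gapv hv hvp hu hup (by rw [hB]; linarith only [h1])
  rw [hB] at h2
  exact h2

/-- `B x u > 1` implies `B x u ≥ 1 + K² / 2` -/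
theorem Xs.gap_u (X : Xs Ψ B ρ φ t d1 d2 x x' g x1 x2 g' x1' x2') (h0 : B d1 d2 = 0) (hb1 : -B t d1 < 1)
    (hb1' : 0 ≤ -B t d1) (hb2 : -B t d2 < 1) (hb2' : 0 ≤ -B t d2) {a0 b : ℝ} (hu : a0 • t + b • d2 ∈ Ψ)
    (ha : 0 ≤ a0) (hb : 0 ≤ b) (h1 : 1 < B x (a0 • t + b • d2)) (hK : 0 ≤ (B t d1) ^ 2 + (B t d2) ^ 2 - 1) :
    1 + ((B t d1) ^ 2 + (B t d2) ^ 2 - 1) / 2 ≤ B x (a0 • t + b • d2) := by
  obtain ⟨v0, v1, v2, z0, z1, z2, e0, e1, e2, en⟩ := X.gap_vec hu ha hb h1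
  obtain ⟨β, hβ⟩ : ∃ β, β = B x (a0 • t + b • d2) := ⟨_, rfl⟩
  rw [← hβ] at h1 en ⊢
  obtain ⟨p, hp⟩ : ∃ p, p = -B t d1 := ⟨_, rfl⟩
  obtain ⟨q, hq⟩ : ∃ q, q = -B t d2 := ⟨_, rfl⟩
  have hp' : B t d1 = -p := by rw [hp]; ring
  have hq' : B t d2 = -q := by rw [hq]; ring
  rw [hp', hq'] at e0
  rw [h0, hp'] at e1
  rw [h0, hq'] at e2
  rw [h0, hp', hq'] at en
  rw [← hp] at hb1 hb1'
  rw [← hq] at hb2 hb2'
  rw [hp', hq'] at hK ⊢
  have n0 := z0.nonneg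
  have n1 := z1.nonneg
  have n2 := z2.nonneg
  obtain ⟨α0, h0'⟩ : ∃ α0, α0 = -v0 + p * v1 + q * v2 := ⟨_, rfl⟩
  obtain ⟨α1, h1'⟩ : ∃ α1, α1 = p * v0 - v1 := ⟨_, rfl⟩
  obtain ⟨α2, h2'⟩ : ∃ α2, α2 = q * v0 - v2 := ⟨_, rfl⟩
  have a0n : 0 ≤ α0 := by rw [h0']; linarith only [e0]
  have a1n : 0 ≤ α1 := by rw [h1']; linarith only [e1]
  have a2n : 0 ≤ α2 := by rw [h2']; linarith only [e2]
  have hQ : 2 * β - 2 = v0 * α0 + v1 * α1 + v2 * α2 := by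
    rw [h0', h1', h2']
    linarith
  -- all coefficients are at least one
  have hv0 : 1 ≤ v0 := by
    rcases z0 with h | h
    · exfalso
      rw [h] at h1' h2' hQ
      have g1 : v1 = 0 := by linarith only [n1, h1', a1n]
      have g2 : v2 = 0 := by linarith only [n2, h2', a2n]
      rw [g1, g2] at hQ
      linarith only [h1, hQ]
    · exact h
  have hv1 : 1 ≤ v1 := by
    rcases z1 with h | h
    · exfalso
      rw [h] at h0'
      have g1 : v0 ≤ q * v2 := by linarith only [h0', a0n]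
      have g2 : q * v2 ≤ q * (q * v0) := mul_le_mul_of_nonneg_left (by linarith only [h2', a2n]) hb2'
      have g3 : 0 < (1 - q * q) * v0 := mul_pos (by nlinarith only [hb2', hb2]) (by linarith only [hv0])
      nlinarith only [g1, g2, g3]
    · exact h
  have hv2 : 1 ≤ v2 := by
    rcases z2 with h | h
    · exfalso
      rw [h] at h0'
      have g1 : v0 ≤ p * v1 := by linarith only [h0', a0n]
      have g2 : p * v1 ≤ p * (p * v0) := mul_le_mul_of_nonneg_left (by linarith only [h1', a1n]) hb1'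
      have g3 : 0 < (1 - p * p) * v0 := mul_pos (by nlinarith only [hb1', hb1]) (by linarith only [hv0])
      nlinarith only [g1, g2, g3]
    · exact h
  have k1 : α0 + p * α1 + q * α2 = (p ^ 2 + q ^ 2 - 1) * v0 := by
    rw [h0', h1', h2']
    ring
  have k2 : (p ^ 2 + q ^ 2 - 1) * 1 ≤ (p ^ 2 + q ^ 2 - 1) * v0 := by
    apply mul_le_mul_of_nonneg_left hv0
    nlinarith only [hK]
  have k3 : α0 ≤ v0 * α0 := by nlinarith only [a0n, hv0]
  have k4 : p * α1 ≤ v1 * α1 := mul_le_mul_of_nonneg_right (by linarith only [hb1, hv1]) a1n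
  have k5 : q * α2 ≤ v2 * α2 := mul_le_mul_of_nonneg_right (by linarith only [hb2, hv2]) a2n
  nlinarith only [hQ, k1, k2, k3, k4, k5]

/-- `m1 = 4`: `B x u > 1` implies `B x u ≥ 2 b1 b2` -/
theorem Xs.gap_m4 (X : Xs Ψ B ρ φ t d1 d2 x x' g x1 x2 g' x1' x2') (h0 : B d1 d2 = 0)
    (hb1 : 2 * (B t d1) ^ 2 = 1) (hb1' : 0 ≤ -B t d1) (hb2 : -B t d2 < 1) (hb2' : 1 ≤ 2 * (B t d2) ^ 2)
    (hb2'' : 0 ≤ -B t d2) {a0 b : ℝ} (hu : a0 • t + b • d2 ∈ Ψ)
    (ha : 0 ≤ a0) (hb : 0 ≤ b) (h1 : 1 < B x (a0 • t + b • d2)) :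
    2 * B t d1 * B t d2 ≤ B x (a0 • t + b • d2) := by
  obtain ⟨v0, v1, v2, z0, z1, z2, e0, e1, e2, en⟩ := X.gap_vec hu ha hb h1
  obtain ⟨β, hβ⟩ : ∃ β, β = B x (a0 • t + b • d2) := ⟨_, rfl⟩
  rw [← hβ] at h1 en ⊢
  obtain ⟨p, hp⟩ : ∃ p, p = -B t d1 := ⟨_, rfl⟩
  obtain ⟨q, hq⟩ : ∃ q, q = -B t d2 := ⟨_, rfl⟩
  have hp' : B t d1 = -p := by rw [hp]; ring
  have hq' : B t d2 = -q := by rw [hq]; ring
  rw [hp', hq'] at e0
  rw [h0, hp'] at e1
  rw [h0, hq'] at e2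
  rw [h0, hp', hq'] at en
  rw [← hp] at hb1'
  rw [← hq] at hb2 hb2''
  rw [hp'] at hb1
  rw [hq'] at hb2'
  rw [hp', hq']
  have hp2 : p ^ 2 = 1 / 2 := by nlinarith only [hb1]
  have hp1 : p < 1 := by nlinarith only [hp2]
  have hp0 : 1 / 2 < p := by nlinarith only [hb1, hb1']
  have n0 := z0.nonneg
  have n1 := z1.nonneg
  have n2 := z2.nonneg
  obtain ⟨α0, h0'⟩ : ∃ α0, α0 = -v0 + p * v1 + q * v2 := ⟨_, rfl⟩
  obtain ⟨α1, h1'⟩ : ∃ α1, α1 = p * v0 - v1 := ⟨_, rfl⟩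
  obtain ⟨α2, h2'⟩ : ∃ α2, α2 = q * v0 - v2 := ⟨_, rfl⟩
  have a0n : 0 ≤ α0 := by rw [h0']; linarith only [e0]
  have a1n : 0 ≤ α1 := by rw [h1']; linarith only [e1]
  have a2n : 0 ≤ α2 := by rw [h2']; linarith only [e2]
  have hQ : 2 * β - 2 = v0 * α0 + v1 * α1 + v2 * α2 := by
    rw [h0', h1', h2']
    linarith only [en]
  have hv0 : 1 ≤ v0 := by
    rcases z0 with h | h
    · exfalso
      rw [h] at h1' h2' hQ
      have g1 : v1 = 0 := by linarith only [n1, h1', a1n]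
      have g2 : v2 = 0 := by linarith only [n2, h2', a2n]
      rw [g1, g2] at hQ
      linarith only [h1, hQ]
    · exact h
  have hv1 : 1 ≤ v1 := by
    rcases z1 with h | h
    · exfalso
      rw [h] at h0'
      have g1 : v0 ≤ q * v2 := by linarith only [h0', a0n]
      have g2 : q * v2 ≤ q * (q * v0) := mul_le_mul_of_nonneg_left (by linarith only [h2', a2n]) hb2''
      have g3 : 0 < (1 - q * q) * v0 := mul_pos (by nlinarith only [hb2'', hb2]) (by linarith only [hv0])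
      nlinarith only [g1, g2, g3]
    · exact h
  have hv2 : 1 ≤ v2 := by
    rcases z2 with h | h
    · exfalso
      rw [h] at h0'
      have g1 : v0 ≤ p * v1 := by linarith only [h0', a0n]
      have g2 : p * v1 ≤ p * (p * v0) := mul_le_mul_of_nonneg_left (by linarith only [h1', a1n]) hb1'
      have g3 : 0 < (1 - p * p) * v0 := mul_pos (by nlinarith only [hp2]) (by linarith only [hv0])
      nlinarith only [g1, g2, g3]
    · exact h
  have hq0 : 1 / 2 < q := by nlinarith only [hb2', hb2'']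
  -- `v0 ≥ 2 p`
  have hv0' : 2 * p ≤ v0 := by
    have g1 : 1 ≤ p * v0 := by linarith only [h1', a1n, hv1]
    have g2 : 0 ≤ 2 * p * (p * v0 - 1) := mul_nonneg (by linarith only [hp0]) (by linarith only [g1])
    nlinarith only [hp2, hp0, g2]
  have hpq : p ≤ q := by
    by_contra hcon
    rw [not_le] at hcon
    have g1 : 0 < (p - q) * (p + q) := mul_pos (sub_pos.2 hcon) (by linarith only [hp0, hb2''])
    nlinarith only [hp2, hb2', g1]
  -- rows 1 and 2 of the adjoint matrix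
  have k1 : p * α0 + (1 - q ^ 2) * α1 + p * q * α2 = (p ^ 2 + q ^ 2 - 1) * v1 := by
    rw [h0', h1', h2']
    ring
  have k2 : q * α0 + p * q * α1 + (1 - p ^ 2) * α2 = (p ^ 2 + q ^ 2 - 1) * v2 := by
    rw [h0', h1', h2']
    ring
  have hK : 0 ≤ p ^ 2 + q ^ 2 - 1 := by nlinarith only [hp2, hp0, hpq]
  have k3 : (p ^ 2 + q ^ 2 - 1) * 2 ≤ (p + q) * α0 + (1 - q ^ 2 + p * q) * α1 + p * (p + q) * α2 := by
    have g1 := mul_le_mul_of_nonneg_left hv1 hK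
    have g2 := mul_le_mul_of_nonneg_left hv2 hK
    nlinarith only [hp2, a2n, k1, k2, g1, g2]
  have k4 : p ^ 2 + q ^ 2 - 1 = (q - p) * (p + q) := by linear_combination 2 * hp2
  -- `Q ≥ 2 p α0 + α1 + α2`
  have k5 : 2 * p * α0 + α1 + α2 ≤ 2 * β - 2 := by
    rw [hQ]
    have g1 := mul_le_mul_of_nonneg_right hv0' a0n
    have g2 := mul_le_mul_of_nonneg_right hv1 a1n
    have g3 := mul_le_mul_of_nonneg_right hv2 a2n
    linarith only [g1, g2, g3]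
  have k6 : (p + q) * (4 * p * (q - p)) ≤ (p + q) * (2 * p * α0 + α1 + α2) := by
    have g1 : 2 * p * ((p ^ 2 + q ^ 2 - 1) * 2) ≤
        2 * p * ((p + q) * α0 + (1 - q ^ 2 + p * q) * α1 + p * (p + q) * α2) :=
      mul_le_mul_of_nonneg_left k3 (by linarith only [hp0])
    have g2 : 2 * p * (1 - q ^ 2 + p * q) * α1 ≤ (p + q) * α1 := by
      apply mul_le_mul_of_nonneg_right _ a1n
      have g3 : 0 ≤ p * (q ^ 2 - 1 / 2) := mul_nonneg (by linarith only [hp0]) (by nlinarith only [hK, k4])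
      nlinarith only [hq0, k4, g3]
    have g4 : 2 * p * (p * (p + q) * α2) = (p + q) * α2 := by
      have : 2 * p * (p * (p + q) * α2) = 2 * p ^ 2 * ((p + q) * α2) := by ring
      rw [this, hp2]
      ring
    rw [k4] at g1
    nlinarith only [g1, g2, g4]
  have k7 : 4 * p * (q - p) ≤ 2 * p * α0 + α1 + α2 := le_of_mul_le_mul_left k6 (by linarith only [hp0, hpq])
  nlinarith only [k4, k5, k7]

/-- `ρ x ≤ 1` and (U1), (ii): `ρ u < 1 - K`; (iii): `B x u < (τ + 1 / τ) / 2` -/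
theorem Xs.u1_use (X : Xs Ψ B ρ φ t d1 d2 x x' g x1 x2 g' x1' x2') (l1 : -1 ≤ B t d1)
    (l2 : -1 ≤ B t d2) (l0 : -1 ≤ B d1 d2) {a0 b τ : ℝ} (hu : a0 • t + b • d2 ∈ Ψ) (hb : 1 ≤ b)
    (hf : a0 + b * φ d2 ≤ 0) (hτ : 0 < τ) (hr : τ < a0 + b * ρ d2) :
    (B x (a0 • t + b • d2) ≤ 1 → τ < B x (a0 • t + b • d2) - √(kq B t d1 d2)) ∧
    (0 < kq B t d1 d2 → 1 ≤ B x (a0 • t + b • d2) → 2 * τ * B x (a0 • t + b • d2) < 1 + τ ^ 2) := by
  obtain ⟨k1, k2, k3⟩ := X.u1 l1 l2 l0 hu hb (X.hdu hu hf)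
  obtain ⟨β, hβ⟩ : ∃ β, β = B x (a0 • t + b • d2) := ⟨_, rfl⟩
  rw [← hβ] at k1 k2 k3 ⊢
  have hρ := X.le_one
  have r0 : ρ x ≤ 1 := by
    rw [X.rx]
    exact hρ.1
  have r1 : 0 ≤ ρ x := X.L.rx
  have hβ0 : 0 < β := by
    by_contra h
    have := mul_nonpos_of_nonneg_of_nonpos r1 (not_lt.1 h)
    linarith only [hτ, hr, k1, this]
  have red : ∀ y : ℝ, τ < ρ x * y → τ < y := by
    intro y hy
    have h0 : 0 < y := by
      by_contra h
      have := mul_nonpos_of_nonneg_of_nonpos r1 (not_lt.1 h)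
      linarith only [hτ, hy, this]
    have := mul_le_mul_of_nonneg_right r0 h0.le
    linarith only [hy, this]
  constructor
  · intro h1
    exact red _ (lt_of_lt_of_le hr (k2 (by linarith only [hβ0]) h1))
  · intro hq h1
    have h2 := red _ (lt_of_lt_of_le hr (k3 hq h1))
    have h3 : √(β ^ 2 - 1) < β - τ := by linarith only [h2]
    have h4 : 0 ≤ √(β ^ 2 - 1) := Real.sqrt_nonneg _
    have h5 : √(β ^ 2 - 1) ^ 2 = β ^ 2 - 1 := Real.sq_sqrt (by nlinarith only [h1])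
    nlinarith only [h3, h4, h5]

/-- **[GAP2]**, `m1 = 4`, `b2 < 1`, `j = 4` -/
theorem Xs.g2_m4 (X : Xs Ψ B ρ φ t d1 d2 x x' g x1 x2 g' x1' x2') (h0 : B d1 d2 = 0)
    (hb1 : 2 * (B t d1) ^ 2 = 1) (hb1' : 1 / 2 ≤ -B t d1) (hb2 : -B t d2 < 1) (hb2' : 1 / 2 ≤ -B t d2)
    (hG : Good (-B t d2) (φ d2) 3) : False := by
  have hR := Pool.Agent.Helper62.DY.rt_of_tri X.L.tri
  have hS := X.L.str_2
  have hnk := hG.nk hS X.h2
  have hs := hG.hs 3 le_rfl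
  have hm := hG.hm 2 (by norm_num)
  obtain ⟨q, hq⟩ : ∃ q, q = -B t d2 := ⟨_, rfl⟩
  rw [← hq] at hb2 hb2' hnk hs hm
  have q1 : sq q 1 = 1 := rfl
  have q2 : sq q 2 = 2 * q := by
    change 2 * q * sq q 1 - sq q 0 = 2 * q
    have : sq q 0 = 0 := rfl
    rw [q1, this]
    ring
  have q3 : sq q 3 = 4 * q ^ 2 - 1 := by
    change 2 * q * sq q 2 - sq q 1 = _
    rw [q1, q2]
    ring
  have q4 : sq q 4 = 8 * q ^ 3 - 4 * q := by
    change 2 * q * sq q 3 - sq q 2 = _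
    rw [q3, q2]
    ring
  have e34 : 3 + 1 = 4 := rfl
  have e23 : 2 + 1 = 3 := rfl
  rw [e34, q4, q3] at hnk
  rw [e34, q4] at hs
  rw [e23, q3, q2] at hm
  -- roots of the plane of `t`, `d2`
  have m1 := hR.r0 _ _ _ hR.e2
  have m2 := hR.r2 _ _ _ m1
  have m3 := hR.r0 _ _ _ m2
  simp only [← hq] at m1 m2 m3
  have c2 : (2 * -B t d1 * 0 + 2 * q * 1 - 0 : ℝ) = 2 * q := by ring
  rw [c2] at m2 m3
  have c3 : (2 * q * (2 * q) + 2 * -B d1 d2 * 0 - 1 : ℝ) = 4 * q ^ 2 - 1 := by ring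
  rw [c3] at m2 m3
  have c4 : (2 * -B t d1 * 0 + 2 * q * (4 * q ^ 2 - 1) - 2 * q : ℝ) = 8 * q ^ 3 - 4 * q := by ring
  rw [c4] at m3
  have z3 : 1 ≤ 8 * q ^ 3 - 4 * q := (hR.z0 m3 hs).1
  -- `μ = 2 q`, `μ² ≥ μ + 1`
  obtain ⟨μ, hμ⟩ : ∃ μ, μ = 2 * q := ⟨_, rfl⟩
  have hqμ : q = μ / 2 := by rw [hμ]; ring
  rw [hqμ] at z3 hnk hs hm m2 hb2 hb2'
  have z3' : 0 ≤ (μ + 1) * (μ ^ 2 - μ - 1) := by nlinarith only [z3]
  have z4 : 0 ≤ μ ^ 2 - μ - 1 := nonneg_of_mul_nonneg_right z3' (by linarith only [hb2'])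
  have hμ1 : 8 / 5 ≤ μ := by
    by_contra hcon
    rw [not_le] at hcon
    nlinarith only [hb2', z4, hcon]
  have hμ2 : μ < 2 := by linarith only [hb2]
  obtain ⟨τ, hτ⟩ : ∃ τ, τ = 1 / μ := ⟨_, rfl⟩
  have hτμ : τ * μ = 1 := by
    rw [hτ]
    field_simp
  have hτ0 : 0 < τ := by
    rw [hτ]
    positivity
  have hu : μ • t + (μ ^ 2 - 1) • d2 ∈ Ψ := by
    have e1 : (2 * (μ / 2) : ℝ) = μ := by ring
    have e2 : (4 * (μ / 2) ^ 2 - 1 : ℝ) = μ ^ 2 - 1 := by ring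
    rw [e1, e2] at m2
    have e3 : μ • t + (μ ^ 2 - 1) • d2 = μ • t + (0 : ℝ) • d1 + (μ ^ 2 - 1) • d2 := by module
    rw [e3]
    exact m2
  have hf : μ + (μ ^ 2 - 1) * φ d2 ≤ 0 := by
    have e1 : (4 * (μ / 2) ^ 2 - 1 : ℝ) = μ ^ 2 - 1 := by ring
    have e2 : (2 * (μ / 2) : ℝ) = μ := by ring
    rw [e1, e2] at hm
    linarith
  -- the strip
  have hρ : τ < μ + (μ ^ 2 - 1) * ρ d2 := by
    have g1 : 0 < μ ^ 2 - 2 := by nlinarith only [hμ1]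
    have g2 : 1 < μ * (μ ^ 2 - 2) * ρ d2 + (μ ^ 2 - 1) := by
      have : (8 * (μ / 2) ^ 3 - 4 * (μ / 2)) = μ * (μ ^ 2 - 2) := by ring
      rw [this] at hnk
      have e1 : (4 * (μ / 2) ^ 2 - 1 : ℝ) = μ ^ 2 - 1 := by ring
      rw [e1] at hnk
      exact hnk
    have g3 : 0 < (μ ^ 2 - 2) * (μ * ρ d2 + 1) := by nlinarith only [g2]
    have g4 : 0 < μ * ρ d2 + 1 := (mul_pos_iff_of_pos_left g1).1 g3
    have g5 : 0 < (μ ^ 2 - 1) * (μ * ρ d2 + 1) := mul_pos (by linarith only [g1]) g4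
    have g6 : τ * μ < (μ + (μ ^ 2 - 1) * ρ d2) * μ := by
      rw [hτμ]
      nlinarith only [g5]
    exact lt_of_mul_lt_mul_right g6 (by linarith only [hμ1])
  have hb1n : B t d1 < 0 := by linarith only [hb1']
  have l1 : -1 ≤ B t d1 := by nlinarith only [hb1]
  have hq2 : B t d2 = -(μ / 2) := by rw [← hqμ, hq]; ring
  have l2 : -1 ≤ B t d2 := by rw [hq2]; linarith only [hμ2]
  obtain ⟨k1, k2⟩ := X.u1_use l1 l2 (by rw [h0]; norm_num) hu (by nlinarith only [hμ1]) hf hτ0 hρ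
  have hkq : kq B t d1 d2 = (μ ^ 2 - 2) / 4 := by
    unfold kq
    rw [h0, hq2]
    linear_combination (1 / 2) * hb1
  rw [hkq] at k1 k2
  rcases le_or_gt (B x (μ • t + (μ ^ 2 - 1) • d2)) 1 with hB | hB
  · -- `K ≥ 1 - τ`
    have h1 := k1 hB
    have h2 : √((μ ^ 2 - 2) / 4) < 1 - τ := by linarith only [hB, h1]
    have h3 : √((μ ^ 2 - 2) / 4) ^ 2 = (μ ^ 2 - 2) / 4 := Real.sq_sqrt (by nlinarith only [hμ1])
    have h4 : (μ ^ 2 - 2) / 4 < (1 - τ) ^ 2 := by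
      rw [← h3]
      exact pow_lt_pow_left₀ h2 (Real.sqrt_nonneg _) (by norm_num)
    have h5 : μ ^ 2 * ((μ ^ 2 - 2) / 4) < (μ - 1) ^ 2 := by
      have g1 : μ ^ 2 * ((μ ^ 2 - 2) / 4) < μ ^ 2 * (1 - τ) ^ 2 := mul_lt_mul_of_pos_left h4 (by positivity)
      have g2 : μ ^ 2 * (1 - τ) ^ 2 = (μ - 1) ^ 2 := by
        have : μ ^ 2 * (1 - τ) ^ 2 = (μ - τ * μ) ^ 2 := by ring
        rw [this, hτμ]
      linarith only [g1, g2]
    have h6 : 0 ≤ (μ ^ 2 - μ - 1) * (μ ^ 2 + μ - 4) := mul_nonneg z4 (by nlinarith only [hμ1])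
    nlinarith only [hμ1, h5, h6]
  · -- the gap
    have h1 := k2 (by nlinarith only [hμ1]) hB.le
    have h2 := X.gap_m4 h0 hb1 (by linarith only [hb1n]) (by rw [hq2]; linarith only [hμ2]) (by rw [hq2]; nlinarith only [hμ1])
      (by rw [hq2]; linarith only [hμ1]) hu (by linarith only [hμ1]) (by nlinarith only [hμ1]) hB
    rw [hq2] at h2
    obtain ⟨p, hp⟩ : ∃ p, p = -B t d1 := ⟨_, rfl⟩
    have hp' : B t d1 = -p := by rw [hp]; ring
    rw [hp'] at h2 hb1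
    rw [← hp] at hb1'
    have h3 : p * μ ≤ B x (μ • t + (μ ^ 2 - 1) • d2) := by linarith
    -- `2 p - 1 > 2 / 5`
    have h4 : 7 / 10 < p := by
      by_contra hcon
      rw [not_lt] at hcon
      nlinarith only [hb1', hb1, hcon]
    have h5 : 2 * τ * (p * μ) < 1 + τ ^ 2 := by
      have := mul_le_mul_of_nonneg_left h3 (by linarith only [hτ0] : 0 ≤ 2 * τ)
      linarith only [h1, this]
    have h6 : 2 * p < 1 + τ ^ 2 := by
      have : 2 * τ * (p * μ) = 2 * p * (τ * μ) := by ring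
      rw [this, hτμ] at h5
      linarith only [h5]
    have h7 : (2 * p - 1) * μ ^ 2 < 1 := by
      have g1 : μ ^ 2 * (2 * p) < μ ^ 2 * (1 + τ ^ 2) := mul_lt_mul_of_pos_left h6 (by positivity)
      have g2 : μ ^ 2 * (1 + τ ^ 2) = μ ^ 2 + (τ * μ) ^ 2 := by ring
      rw [g2, hτμ] at g1
      linarith only [g1]
    nlinarith only [hμ1, h4, h7]

end DY
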