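import Pool.Agent.Helper9.DY.NG3
import Pool.Agent.Helper59.DY.NGbO
import Pool.Agent.Helper57.DY.NGbm
import Pool.Agent.Helper18.DY.NGiO

/-!
# The nongap case from its last class (MP_d13a5e_al)
-/

set_option autoImplicit false

namespace DY

variable {E : Type*} [AddCommGroup E] [Module ℝ E] {Ψ : Set E} {B : E →ₗ[ℝ] E →ₗ[ℝ] ℝ}

/-- only the class `b1 = 0` of `NGiO` is missing -/
theorem ng_of4 (h0 : Pool.Agent.Helper18.DY.NGi0 Ψ B) : NGStat Ψ B :=
  ng_of3 Pool.Agent.Helper59.DY.ng_bo Pool.Agent.Helper57.DY.ng_bn (Pool.Agent.Helper18.DY.ngiO_of h0)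

end DY
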