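import Pool.Agent.Helper9.DY.G2m4
import Pool.Agent.Helper32.DY.G2b
import Pool.Agent.Helper37.DY.Gap2

/-!
# [GAP2] (b) complete (MP_d13a5e_al)
-/

set_option autoImplicit false

namespace DY

variable {E : Type*} [AddCommGroup E] [Module ℝ E]

theorem gapU (Ψ : Set E) (B : E →ₗ[ℝ] E →ₗ[ℝ] ℝ) : GapU32 Ψ B := by
  intro ρ φ t d1 d2 x x' g x1 x2 g' x1' x2' X h0 hb1 hb2 hK a0 b hu ha hb h1
  have hkq : kq B t d1 d2 = (B t d1) ^ 2 + (B t d2) ^ 2 - 1 := by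
    unfold kq
    rw [h0]
    ring
  have f1 := X.L.foot
  have n1 : 0 ≤ -B t d1 := by
    rcases X.L.lbl.z1 with h | h <;> linarith
  have n2 : 0 ≤ -B t d2 := by
    rcases X.L.lbl.z2 with h | h <;> linarith
  rw [hkq] at hK ⊢
  have h2 := X.gap_u h0 hb1 n1 hb2 n2 hu ha hb h1 hK.le
  nlinarith [sq_nonneg ((B t d1) ^ 2 + (B t d2) ^ 2 - 1)]

/-- **[GAP2] (b)** -/
theorem g2b (Ψ : Set E) (B : E →ₗ[ℝ] E →ₗ[ℝ] ℝ) : G2b Ψ B := by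
  refine g2b_of32 (gapU Ψ B) ?_ ?_
  · intro ρ φ t d1 d2 x x' g x1 x2 g' x1' x2' X h0 hb1 hb2 hP
    obtain ⟨hb, -, k, hk, hG, -⟩ := hP
    exact Pool.Agent.Helper37.DY.gap2_big X h0 hb (Or.inl ⟨k, hk, hG⟩)
  · intro ρ φ t d1 d2 x x' g x1 x2 g' x1' x2' X h0 hb1 hb2 hP
    obtain ⟨-, hb, hb2', hG⟩ := hP
    exact X.g2_m4 h0 (by nlinarith) hb1 hb2' hb2 hG

end DY
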