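import Pool.Agent.Helper54.DY.Det2

/-!
# The vector of two roots with distant mirrors (MP_d13a5e_al)

`Tri.gapv`: for positive roots `x, y` with `B x y < -1` there is a vector `v` with coefficients in `{0} ∪ [1, ∞)`,
`B v e ≤ 0` for the simple roots `e` and `B v v = 2 + 2 B x y` (the sum of a pair with the same value of `B` and
minimal height).
-/

set_option autoImplicit false

namespace DY

open Set

variable {E : Type*} [AddCommGroup E] [Module ℝ E]
variable {Ψ : Set E} {B : E →ₗ[ℝ] E →ₗ[ℝ] ℝ} {a b c x y : E}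

/-- the conclusion of `Tri.gapv` -/
def GapG (B : E →ₗ[ℝ] E →ₗ[ℝ] ℝ) (a b c : E) (w : ℝ) : Prop :=
  ∃ v0 v1 v2 : ℝ, Z1 v0 ∧ Z1 v1 ∧ Z1 v2 ∧ v0 + B a b * v1 + B a c * v2 ≤ 0 ∧
    B a b * v0 + v1 + B b c * v2 ≤ 0 ∧ B a c * v0 + B b c * v1 + v2 ≤ 0 ∧
    v0 ^ 2 + v1 ^ 2 + v2 ^ 2 + 2 * B a b * v0 * v1 + 2 * B a c * v0 * v2 + 2 * B b c * v1 * v2 = 2 + 2 * w

private theorem z1_add {p q : ℝ} (hp : Z1 p) (hq : Z1 q) : Z1 (p + q) := by
  rcases hp with hp | hp
  · rw [hp, zero_add]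
    exact hq
  · right
    linarith [hq.nonneg]

theorem Tri.gapv (ht : Tri Ψ B a b c) (hx : x ∈ Ψ) (hxp : x ∈ C01 a b c) (hy : y ∈ Ψ) (hyp : y ∈ C01 a b c)
    (hB : B x y < -1) : GapG B a b c (B x y) := by
  obtain ⟨l, hl⟩ := ht.exists_ht
  have hfin : ∀ r : ℝ, {p : E × E | (p.1 ∈ Ψ ∧ p.1 ∈ C01 a b c ∧ p.2 ∈ Ψ ∧ p.2 ∈ C01 a b c ∧
      B p.1 p.2 < -1) ∧ l p.1 + l p.2 ≤ r}.Finite := by
    intro r
    refine ((hl.fin ht r).prod (hl.fin ht r)).subset ?_
    rintro p ⟨⟨h1, h2, h3, h4, -⟩, h5⟩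
    have e1 := hl.one_le ht h1 h2
    have e2 := hl.one_le ht h3 h4
    exact ⟨⟨h1, h2, by linarith⟩, ⟨h3, h4, by linarith⟩⟩
  refine ht_ind {p : E × E | p.1 ∈ Ψ ∧ p.1 ∈ C01 a b c ∧ p.2 ∈ Ψ ∧ p.2 ∈ C01 a b c ∧ B p.1 p.2 < -1}
    (fun p => l p.1 + l p.2) hfin (fun p => GapG B a b c (B p.1 p.2)) ?_ (x, y)
    ⟨hx, hxp, hy, hyp, hB⟩
  rintro ⟨x, y⟩ ⟨hx, hxp, hy, hyp, hB⟩ ih
  simp only at hx hxp hy hyp hB ih ⊢
  have haa : B a a = 1 := ht.one a ht.ha
  have hbb : B b b = 1 := ht.one b ht.hb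
  have hcc : B c c = 1 := ht.one c ht.hc
  have hxx : B x x = 1 := ht.one x hx
  have hyy : B y y = 1 := ht.one y hy
  have hneed : ∀ e : E, (x ≠ e ∧ y ≠ e) ∨ B e x + B e y ≤ 0 := by
    intro e
    by_cases hxe : x = e
    · right
      rw [← hxe, hxx]
      linarith
    by_cases hye : y = e
    · right
      rw [← hye, hyy, ht.symm y x]
      linarith
    exact Or.inl ⟨hxe, hye⟩
  -- a reflection which lowers the pair
  have step : ∀ e e' e'' : E, Tri Ψ B e e' e'' → C01 e e' e'' = C01 a b c → Ht e e' e'' l → x ≠ e → y ≠ e →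
      0 < B e x + B e y → GapG B a b c (B x y) := by
    intro e e' e'' ht' hC hl' hxe hye h0
    have h1 : B e e = 1 := ht'.one e ht'.ha
    have hB' := B_rfW ht'.symm h1 x y
    have h2 := ih (rf B e x, rf B e y) ⟨ht'.refl e ht'.ha x hx, by
        rw [← hC]; exact ht'.rf_posW hx (by rw [hC]; exact hxp) hxe, ht'.refl e ht'.ha y hy, by
        rw [← hC]; exact ht'.rf_posW hy (by rw [hC]; exact hyp) hye, by rw [hB']; exact hB⟩ (by
        rw [hl'.rf, hl'.rf]
        linarith)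
    simp only [hB'] at h2
    exact h2
  by_cases ka : B a x + B a y ≤ 0
  swap
  · rcases hneed a with h1 | h1
    · exact step a b c ht rfl hl h1.1 h1.2 (not_le.1 ka)
    · exact absurd h1 ka
  by_cases kb : B b x + B b y ≤ 0
  swap
  · rcases hneed b with h1 | h1
    · exact step b a c ht.swapW (C01_swapW a b c) ⟨hl.lb, hl.la, hl.lc⟩ h1.1 h1.2 (not_le.1 kb)
    · exact absurd h1 kb
  by_cases kc : B c x + B c y ≤ 0
  swap
  · rcases hneed c with h1 | h1
    · exact step c b a ht.swapW' (C01_swapW' a b c) ⟨hl.lc, hl.lb, hl.la⟩ h1.1 h1.2 (not_le.1 kc)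
    · exact absurd h1 kc
  obtain ⟨x0, x1, x2, ex, p0, p1, p2⟩ := hxp
  obtain ⟨y0, y1, y2, ey, q0, q1, q2⟩ := hyp
  have sba : B b a = B a b := ht.symm b a
  have sca : B c a = B a c := ht.symm c a
  have scb : B c b = B b c := ht.symm c b
  refine ⟨x0 + y0, x1 + y1, x2 + y2, z1_add p0 q0, z1_add p1 q1, z1_add p2 q2, ?_, ?_, ?_, ?_⟩
  · have h1 : B a x + B a y = (x0 + y0) + B a b * (x1 + y1) + B a c * (x2 + y2) := by
      rw [ex, ey]
      simp only [map_add, map_smul, smul_eq_mul, haa]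
      ring
    linarith
  · have h1 : B b x + B b y = B a b * (x0 + y0) + (x1 + y1) + B b c * (x2 + y2) := by
      rw [ex, ey]
      simp only [map_add, map_smul, smul_eq_mul, hbb, sba]
      ring
    linarith
  · have h1 : B c x + B c y = B a c * (x0 + y0) + B b c * (x1 + y1) + (x2 + y2) := by
      rw [ex, ey]
      simp only [map_add, map_smul, smul_eq_mul, hcc, sca, scb]
      ring
    linarith
  · have h1 : B (x + y) (x + y) = 2 + 2 * B x y := by
      simp only [map_add, LinearMap.add_apply, hxx, hyy, ht.symm y x]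
      ring
    rw [← h1, ex, ey]
    simp only [map_add, map_smul, LinearMap.add_apply, LinearMap.smul_apply, smul_eq_mul, haa, hbb, hcc, sba, sca, scb]
    ring

end DY
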