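import Pool.Agent.Helper9.DY.NG2
import Pool.Agent.Helper62.DY.NG1
import Pool.Agent.Helper57.DY.NGinf
import Pool.Agent.Helper57.DY.NGim

/-!
# The nongap case from its open parts (MP_d13a5e_al)
-/

set_option autoImplicit false

namespace DY

variable {E : Type*} [AddCommGroup E] [Module ℝ E] {Ψ : Set E} {B : E →ₗ[ℝ] E →ₗ[ℝ] ℝ}

/-- `NG1O`, `NGinfO`, `NGmN` are known -/
theorem ng_of3 (hbO : NGbO Ψ B) (hbN : NGbN Ψ B) (hi : NGiO Ψ B) : NGStat Ψ B := by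
  refine ng_of2 hbO hbN (Pool.Agent.Helper62.DY.ng1 (Ψ := Ψ) (B := B)).toO hi ?_ ?_
  · intro ρ φ t d1 d2 x x' g x1 x2 g' x1' x2' al1 al2 be1 be2 X O hbe hu hg hP
    obtain ⟨⟨k2, hk2⟩, hB⟩ := hP
    exact Pool.Agent.Helper57.DY.ngInf_ofa X O hbe hu hg hk2 hB
  · intro ρ φ t d1 d2 x x' g x1 x2 g' x1' x2' be1 be2 X hno hb rh hbe fh hu hg hP
    obtain ⟨k2, hk2⟩ := hP
    exact Pool.Agent.Helper57.DY.ng_im X hno hk2

end DY
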